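import Pool.Agent.H450.GG.Rank

set_option autoImplicit false
set_option linter.unusedSectionVars false

namespace Pool.Agent.H450.GG

open Polynomial Module NumberField
open Pool.Agent.R493.CR (S)

theorem alg_closure : Algebra.IsAlgebraic ℚ (AlgebraicClosure ℚ) := by
  have h := AlgebraicClosure.isAlgebraic ℚ
  convert h
  all_goals first | rfl | exact Subsingleton.elim _ _

theorem monic_deg_A (M : ℕ) : (X ^ M * (X - C 1) * (X + C 1) : ℤ[X]).Monic ∧
    (X ^ M * (X - C 1) * (X + C 1) : ℤ[X]).natDegree = M + 2 := by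
  have h1 : (X ^ M * (X - C 1) : ℤ[X]).Monic := (monic_X_pow M).mul (monic_X_sub_C 1)
  refine ⟨h1.mul (monic_X_add_C 1), ?_⟩
  rw [h1.natDegree_mul (monic_X_add_C 1), (monic_X_pow M).natDegree_mul (monic_X_sub_C 1), natDegree_X_pow,
    natDegree_X_sub_C, natDegree_X_add_C]

theorem monic_deg_B (m : ℕ) : (X ^ m * (X - C 1) : ℤ[X]).Monic ∧ (X ^ m * (X - C 1) : ℤ[X]).natDegree = m + 1 := by
  refine ⟨(monic_X_pow m).mul (monic_X_sub_C 1), ?_⟩
  rw [(monic_X_pow m).natDegree_mul (monic_X_sub_C 1), natDegree_X_pow, natDegree_X_sub_C]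

theorem monic_deg_D (n : ℕ) : (∏ j : Fin n, (X - C ((j : ℕ) : ℤ)) : ℤ[X]).Monic ∧
    (∏ j : Fin n, (X - C ((j : ℕ) : ℤ)) : ℤ[X]).natDegree = n := by
  refine ⟨monic_prod_of_monic _ _ fun j _ => monic_X_sub_C _, ?_⟩
  rw [natDegree_prod_of_monic _ _ fun j _ => monic_X_sub_C _,
    Finset.sum_congr rfl fun j _ => natDegree_X_sub_C _]
  simp

/-- a prime `q > n` with `M ∣ q + 1` -/
theorem exists_q (M n : ℕ) (hM : M ≠ 0) : ∃ q : ℕ, q.Prime ∧ n < q ∧ M ∣ q + 1 := by
  have : NeZero M := ⟨hM⟩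
  obtain ⟨q, h1, h2, h3⟩ := Nat.forall_exists_prime_gt_and_eq_mod (q := M) (a := -1) (isUnit_one.neg) n
  refine ⟨q, h2, h1, ?_⟩
  rw [← ZMod.natCast_eq_zero_iff]
  push_cast
  rw [h3]
  ring

/-- `S(C(M+2, 2), μ)` -/
theorem main (M μ : ℕ) (hM : M ≠ 0) (hμ0 : μ ≠ 0) (hμ : ∀ t : ℤ, (M : ℤ) ∣ 2 * t → (μ : ℤ) ∣ t) :
    S ((M + 2).choose 2) μ := by
  classical
  intro R
  have : NeZero μ := ⟨hμ0⟩
  have := alg_closure
  obtain ⟨n, hn⟩ : ∃ n, n = M + 2 := ⟨_, rfl⟩
  rw [← hn]
  obtain ⟨N, hN⟩ : ∃ N, N = R + M ^ (n.choose 2) * 2 ^ (n ^ 4) := ⟨_, rfl⟩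
  obtain ⟨q, hq, hnq, hMq⟩ := exists_q M n hM
  have hqF : Fact q.Prime := ⟨hq⟩
  -- the primes
  let r : ℕ → ℕ := fun k => Nat.nth Nat.Prime (k + q)
  have hr : ∀ k, (r k).Prime := fun k => Nat.prime_nth_prime _
  have hrinj : Function.Injective r := by
    intro k l h
    have := (Nat.nth_strictMono Nat.infinite_setOfPred_prime).injective h
    omega
  have hrq : ∀ k, q + 2 ≤ r k := by
    intro k
    have := Nat.add_two_le_nth_prime (k + q)
    show q + 2 ≤ Nat.nth Nat.Prime (k + q)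
    omega
  let Pr : Fin N ⊕ Fin 3 → ℕ := Sum.elim (fun k => r k) ![q, r N, r (N + 1)]
  let G : Fin N ⊕ Fin 3 → ℤ[X] := Sum.elim (fun _ => X ^ M * (X - C 1) * (X + C 1))
    ![∏ j : Fin n, (X - C ((j : ℕ) : ℤ)), X ^ n, X ^ (n - 1) * (X - C 1)]
  have hPr : ∀ i, (Pr i).Prime := by
    rintro (k | k)
    · exact hr k
    · fin_cases k
      · exact hq
      · exact hr N
      · exact hr (N + 1)
  have hPinj : Function.Injective Pr := by
    have hrne : ∀ k, r k ≠ q := fun k => by have := hrq k; omega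
    rintro (k | k) (l | l) h
    · have h1 : r k = r l := h
      have h2 := hrinj h1
      rw [Fin.ext h2]
    · exfalso
      fin_cases l
      · exact hrne k h
      · have h1 : r k = r N := h
        have := hrinj h1
        have := k.2
        omega
      · have h1 : r k = r (N + 1) := h
        have := hrinj h1
        have := k.2
        omega
    · exfalso
      fin_cases k
      · exact hrne l h.symm
      · have h1 : r N = r l := h
        have := hrinj h1
        have := l.2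
        omega
      · have h1 : r (N + 1) = r l := h
        have := hrinj h1
        have := l.2
        omega
    · fin_cases k <;> fin_cases l
      · rfl
      · exact absurd h.symm (hrne N)
      · exact absurd h.symm (hrne (N + 1))
      · exact absurd h (hrne N)
      · rfl
      · have h1 : r N = r (N + 1) := h
        have := hrinj h1
        omega
      · exact absurd h (hrne (N + 1))
      · have h1 : r (N + 1) = r N := h
        have := hrinj h1
        omega
      · rfl
  have hG : ∀ i, (G i).Monic ∧ (G i).natDegree = n := by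
    rintro (k | k)
    · have := monic_deg_A M
      rw [← hn] at this
      exact this
    · fin_cases k
      · exact monic_deg_D n
      · exact ⟨monic_X_pow n, natDegree_X_pow n⟩
      · have := monic_deg_B (n - 1)
        have h1 : n - 1 + 1 = n := by omega
        rw [h1] at this
        exact this
  obtain ⟨f, hfm, hfd, hf⟩ := exists_poly n (by omega) Pr hPr hPinj G hG
  obtain ⟨θ, hθ⟩ := exists_rts (A := AlgebraicClosure ℚ) hfm hfd
  obtain ⟨h0, hf0⟩ := hf (Sum.inr 0)
  obtain ⟨h1, hf1⟩ := hf (Sum.inr 1)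
  obtain ⟨h2, hf2⟩ := hf (Sum.inr 2)
  have hqN : Fact (r N).Prime := ⟨hr N⟩
  have hqN1 : Fact (r (N + 1)).Prime := ⟨hr (N + 1)⟩
  obtain ⟨hinj, hQ⟩ := type_D q hθ hnq hf0
  let c : Conf (AlgebraicClosure ℚ) n :=
    { θ := θ
      inj := hinj
      int := hθ.integral
      perm := hθ.perm
      two := fun i j i' j' hij hij' => two_trans (by omega) hθ hinj (r N) (r (N + 1)) hf1 hf2 i j i' j' hij hij'
      i0 := ⟨0, by omega⟩
      i1 := ⟨1, by omega⟩
      h01 := by intro h; simpa using congrArg Fin.val h }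
  have hP : ∀ k : Fin N, Fact (r k).Prime := fun k => ⟨hr k⟩
  have hA : ∀ k : Fin N, ∃ a b, TypeA c M (r k) a b := by
    intro k
    obtain ⟨h', hf'⟩ := hf (Sum.inl k)
    have h2r : 2 < r k := by have := hrq k; have := hq.two_le; omega
    obtain ⟨a, b, hab, ha, hb, hqa, hqb, hs⟩ := type_A (r k) hθ (by omega : 1 ≤ M) h2r hf'
    exact ⟨a, b, h2r, hab, ha, hb, hqa, hs⟩
  choose a b hA using hA
  have hex := rank_of_conf c (μ := μ) (fun k : Fin N => r k) a b hM hn
    (fun k l h => Fin.ext (hrinj h)) hA q (by omega) hMq hQ hμ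
  have hR : N - M ^ (n.choose 2) * 2 ^ (n ^ 4) = R := by omega
  rw [hR] at hex
  obtain ⟨F, hF⟩ := hex
  exact ⟨c.K, inferInstance, c.nf, c.finrank_K, F, hF⟩

end Pool.Agent.H450.GG
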