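import Mathlib

set_option autoImplicit false
set_option linter.unusedSectionVars false

namespace Pool.Agent.H450.GG

open NumberField
open scoped nonZeroDivisors

section
variable {R : Type*} [CommRing R] [IsDomain R]

/-- A nonarchimedean absolute value which is at most one on `R`. -/
structure IsNA (w : R →*₀ ℝ) : Prop where
  na : ∀ x y, w (x + y) ≤ max (w x) (w y)
  le : ∀ x, w x ≤ 1
  nonneg : ∀ x, 0 ≤ w x
  ne : ∀ x, x ≠ 0 → w x ≠ 0

/-- The content of an ideal. -/
noncomputable def cont (w : R →*₀ ℝ) (I : Ideal R) : ℝ := ⨆ x : I, w x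

variable {w : R →*₀ ℝ} (hw : IsNA w)
include hw

theorem cont_bdd (I : Ideal R) : BddAbove (Set.range fun x : I => w x) :=
  ⟨1, by rintro _ ⟨x, rfl⟩; exact hw.le _⟩

theorem le_cont {I : Ideal R} {x : R} (hx : x ∈ I) : w x ≤ cont w I :=
  le_ciSup (cont_bdd hw I) ⟨x, hx⟩

theorem cont_le {I : Ideal R} {t : ℝ} (h : ∀ x ∈ I, w x ≤ t) : cont w I ≤ t :=
  ciSup_le fun x => h x x.2

theorem cont_nonneg (I : Ideal R) : 0 ≤ cont w I := by
  have := le_cont hw (I := I) (zero_mem I)
  rwa [map_zero] at this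

theorem cont_pos {I : Ideal R} (hI : I ≠ ⊥) : 0 < cont w I := by
  obtain ⟨x, hx, h0⟩ := Submodule.exists_mem_ne_zero_of_ne_bot hI
  exact lt_of_lt_of_le (lt_of_le_of_ne (hw.nonneg x) (hw.ne x h0).symm) (le_cont hw hx)

theorem cont_span {S : Set R} {t : ℝ} (h : ∀ x ∈ S, w x ≤ t) (ht : ∃ x ∈ S, w x = t) :
    cont w (Ideal.span S) = t := by
  obtain ⟨x, hx, hxt⟩ := ht
  have h0 : 0 ≤ t := by rw [← hxt]; exact hw.nonneg x
  apply le_antisymm
  · apply cont_le hw
    intro z hz
    induction hz using Submodule.span_induction with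
    | mem a ha => exact h a ha
    | zero => rw [map_zero]; exact h0
    | add a b _ _ ha hb => exact (hw.na a b).trans (max_le ha hb)
    | smul a b _ hb =>
      rw [smul_eq_mul, map_mul]
      calc w a * w b ≤ 1 * t := mul_le_mul (hw.le a) hb (hw.nonneg b) zero_le_one
        _ = t := one_mul t
  · rw [← hxt]
    exact le_cont hw (Ideal.subset_span hx)

theorem cont_singleton (x : R) : cont w (Ideal.span {x}) = w x :=
  cont_span hw (by simp) ⟨x, by simp, rfl⟩

theorem cont_one : cont w (1 : Ideal R) = 1 := by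
  have := cont_singleton hw (1 : R)
  rwa [Ideal.span_singleton_one, map_one, ← Ideal.one_eq_top] at this

theorem cont_mul (I J : Ideal R) : cont w (I * J) = cont w I * cont w J := by
  apply le_antisymm
  · apply cont_le hw
    intro z hz
    induction hz using Submodule.mul_induction_on' with
    | mem_mul_mem a ha b hb =>
      rw [map_mul]
      exact mul_le_mul (le_cont hw ha) (le_cont hw hb) (hw.nonneg b) (cont_nonneg hw I)
    | add a _ b _ ha hb => exact (hw.na a b).trans (max_le ha hb)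
  · have hJ := cont_nonneg hw J
    unfold cont at hJ ⊢
    rw [Real.iSup_mul_of_nonneg hJ]
    apply ciSup_le
    intro x
    rw [Real.mul_iSup_of_nonneg (hw.nonneg _)]
    apply ciSup_le
    intro y
    rw [← map_mul]
    exact le_cont hw (Ideal.mul_mem_mul x.2 y.2)

theorem cont_pow (I : Ideal R) (k : ℕ) : cont w (I ^ k) = cont w I ^ k := by
  induction k with
  | zero => rw [pow_zero, pow_zero, cont_one hw]
  | succ k ih => rw [pow_succ, pow_succ, cont_mul hw, ih]

theorem cont_prod {ι : Type*} (s : Finset ι) (I : ι → Ideal R) :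
    cont w (∏ i ∈ s, I i) = ∏ i ∈ s, cont w (I i) := by
  classical
  induction s using Finset.induction_on with
  | empty => rw [Finset.prod_empty, Finset.prod_empty, cont_one hw]
  | insert a s ha ih => rw [Finset.prod_insert ha, Finset.prod_insert ha, cont_mul hw, ih]

end

/-- A relation between the classes gives an element with known absolute values. -/
theorem exists_quot {R : Type*} [CommRing R] [IsDedekindDomain R] {N : ℕ} (B C : Fin N → (Ideal R)⁰)
    (v : Fin N → ℤ) (h : ∏ k, (ClassGroup.mk0 (B k) * (ClassGroup.mk0 (C k))⁻¹) ^ (v k) = 1) :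
    ∃ x y : R, x ≠ 0 ∧ y ≠ 0 ∧ ∀ w : R →*₀ ℝ, IsNA w →
      w y / w x = ∏ k, (cont w (B k : Ideal R) / cont w (C k : Ideal R)) ^ (v k) := by
  have hv : ∀ k, ((v k).toNat : ℤ) - ((-v k).toNat : ℤ) = v k := by intro k; omega
  have h1 : ClassGroup.mk0 (∏ k, (B k ^ (v k).toNat * C k ^ (-v k).toNat)) =
      ClassGroup.mk0 (∏ k, (B k ^ (-v k).toNat * C k ^ (v k).toNat)) := by
    rw [← mul_inv_eq_one, map_prod, map_prod, ← Finset.prod_inv_distrib, ← Finset.prod_mul_distrib, ← h]
    refine Finset.prod_congr rfl fun k _ => ?_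
    rw [map_mul, map_mul, map_pow, map_pow, map_pow, map_pow]
    rw [← zpow_natCast, ← zpow_natCast, ← zpow_natCast, ← zpow_natCast]
    conv_rhs => rw [← hv k]
    rw [mul_zpow, inv_zpow, zpow_sub, zpow_sub, mul_inv, mul_inv, inv_inv]
    have comm : ∀ a b c d : ClassGroup R, a * b * (c * d) = a * c * (d * b) := by
      intro a b c d
      rw [mul_assoc, mul_assoc]
      congr 1
      rw [← mul_assoc, mul_comm b c, mul_assoc, mul_comm b d]
    rw [comm]
  rw [ClassGroup.mk0_eq_mk0_iff] at h1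
  obtain ⟨x, y, hx, hy, hxy⟩ := h1
  refine ⟨x, y, hx, hy, ?_⟩
  intro w hw
  have h2 := congrArg (cont w) hxy
  push_cast at h2
  rw [cont_mul hw, cont_mul hw, cont_singleton hw, cont_singleton hw, cont_prod hw, cont_prod hw] at h2
  simp only [cont_mul hw, cont_pow hw] at h2
  have hB : ∀ k, cont w (B k : Ideal R) ≠ 0 := fun k => (cont_pos hw (nonZeroDivisors.coe_ne_zero (B k))).ne'
  have hC : ∀ k, cont w (C k : Ideal R) ≠ 0 := fun k => (cont_pos hw (nonZeroDivisors.coe_ne_zero (C k))).ne'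
  have hx' := hw.ne x hx
  have h3 : ∏ k, (cont w (B k : Ideal R) ^ (-v k).toNat * cont w (C k : Ideal R) ^ (v k).toNat) ≠ 0 :=
    Finset.prod_ne_zero_iff.2 fun k _ => mul_ne_zero (pow_ne_zero _ (hB k)) (pow_ne_zero _ (hC k))
  have h4 : w y / w x = (∏ k, (cont w (B k : Ideal R) ^ (v k).toNat * cont w (C k : Ideal R) ^ (-v k).toNat)) /
      ∏ k, (cont w (B k : Ideal R) ^ (-v k).toNat * cont w (C k : Ideal R) ^ (v k).toNat) := by
    rw [div_eq_div_iff hx' h3]
    linarith
  rw [h4, ← Finset.prod_div_distrib]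
  refine Finset.prod_congr rfl fun k _ => ?_
  conv_rhs => rw [← hv k]
  rw [zpow_sub₀ (div_ne_zero (hB k) (hC k)), zpow_natCast, zpow_natCast, div_pow, div_pow]
  have := pow_ne_zero (v k).toNat (hC k)
  have := pow_ne_zero (-v k).toNat (hB k)
  have := pow_ne_zero (-v k).toNat (hC k)
  field_simp

end Pool.Agent.H450.GG
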