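import Pool.Agent.H450.GG.Core
import Pool.Graph.R_pool_sql_team_seeded_b0a926ef.R493.CR.F

set_option autoImplicit false
set_option linter.unusedSectionVars false

namespace Pool.Agent.H450.GG

open Module NumberField
open scoped nonZeroDivisors

/-- Elements of a finite abelian group with a bounded group of relations modulo `μ`. -/
theorem rank_of_relations (G : Type) [CommGroup G] [Finite G] (μ N b : ℕ) [NeZero μ] (x : Fin N → G)
    (T : Type) [Finite T] (hT : Nat.card T ≤ 2 ^ b) (U : {v : Fin N → ℤ // ∏ k, x k ^ v k = 1} → T)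
    (hU : ∀ v v', U v = U v' → ∀ k, (μ : ℤ) ∣ v'.1 k - v.1 k) :
    ∃ f : Multiplicative (Fin (N - b) → ZMod μ) →* G, Function.Injective f := by
  classical
  let φ : (Fin N → ℤ) →+ Additive G :=
    { toFun := fun v => ∑ k, v k • Additive.ofMul (x k)
      map_zero' := by simp
      map_add' := by intro v w; simp [add_smul, Finset.sum_add_distrib] }
  have hφ : ∀ v : Fin N → ℤ, φ v = 0 → ∏ k, x k ^ v k = 1 := by
    intro v hv
    have h1 : ∑ k, v k • Additive.ofMul (x k) = 0 := hv
    have h2 := congrArg Additive.toMul h1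
    rw [toMul_sum, toMul_zero] at h2
    simpa only [toMul_zsmul, toMul_ofMul] using h2
  let X := φ.range
  let mulμ : X →+ X := nsmulAddMonoidHom μ
  let Y := X ⧸ mulμ.range
  let y : Fin N → Y := fun k => QuotientAddGroup.mk' mulμ.range ⟨φ (Pi.single k 1), ⟨_, rfl⟩⟩
  have hy : ∀ k, μ • y k = 0 := by
    intro k
    rw [← map_nsmul]
    exact (QuotientAddGroup.eq_zero_iff _).2 ⟨_, rfl⟩
  obtain ⟨g, hg⟩ := Pool.Agent.R493.CR.exists_hom μ y hy
  have hgφ : ∀ v : Fin N → ℤ, g (fun i => (v i : ZMod μ)) = QuotientAddGroup.mk' mulμ.range ⟨φ v, ⟨v, rfl⟩⟩ := by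
    intro v
    rw [hg]
    have h1 : (⟨φ v, ⟨v, rfl⟩⟩ : X) = ∑ k, v k • (⟨φ (Pi.single k 1), ⟨_, rfl⟩⟩ : X) := by
      apply Subtype.ext
      rw [AddSubgroup.val_finsetSum]
      simp only [AddSubgroup.coe_zsmul]
      have h2 : v = ∑ k, v k • (Pi.single k 1 : Fin N → ℤ) := by
        funext j
        rw [Finset.sum_apply, Finset.sum_eq_single j]
        · simp
        · intro k _ hk
          simp [Pi.single_eq_of_ne hk.symm]
        · intro h; exact absurd (Finset.mem_univ j) h
      conv_lhs => rw [h2]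
      rw [map_sum]
      exact Finset.sum_congr rfl fun k _ => map_zsmul φ _ _
    rw [h1, map_sum]
    exact Finset.sum_congr rfl fun k _ => (map_zsmul (QuotientAddGroup.mk' mulμ.range) (v k) _).symm
  -- lifts of the elements of the kernel
  have hlift : ∀ w : g.ker, ∃ v : {v : Fin N → ℤ // ∏ k, x k ^ v k = 1}, ∀ k, ((v.1 k : ℤ) : ZMod μ) = (w : Fin N → ZMod μ) k := by
    intro w
    have h1 : g (fun i => ((((w : Fin N → ZMod μ) i).val : ℤ) : ZMod μ)) = 0 := by
      have : (fun i => ((((w : Fin N → ZMod μ) i).val : ℤ) : ZMod μ)) = (w : Fin N → ZMod μ) := by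
        funext i
        simp
      rw [this]
      exact w.2
    rw [hgφ] at h1
    obtain ⟨⟨t, u, rfl⟩, ht⟩ := (QuotientAddGroup.eq_zero_iff _).1 h1
    have h2 : μ • φ u = φ (fun i => (((w : Fin N → ZMod μ) i).val : ℤ)) := congrArg Subtype.val ht
    have h3 : φ ((fun i => (((w : Fin N → ZMod μ) i).val : ℤ)) - μ • u) = 0 := by
      rw [map_sub, map_nsmul, h2, sub_self]
    refine ⟨⟨_, hφ _ h3⟩, ?_⟩
    intro k
    simp
  choose v hv using hlift
  have hinj : Function.Injective fun w => U (v w) := by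
    intro w w' h
    apply Subtype.ext
    funext k
    rw [← hv, ← hv, eq_comm, ← sub_eq_zero, ← Int.cast_sub, ZMod.intCast_zmod_eq_zero_iff_dvd]
    exact hU _ _ h k
  have hcard : Nat.card g.ker ≤ 2 ^ b := (Nat.card_le_card_of_injective _ hinj).trans hT
  obtain ⟨f, hf⟩ := Pool.Agent.R493.CR.exists_inj_of_card_ker μ b N g hcard
  -- the quotient embeds
  have : Finite (Additive G) := inferInstanceAs (Finite G)
  have : Finite X := inferInstance
  have : Finite Y := inferInstance
  obtain ⟨ψ, hψ⟩ := Pool.Agent.R493.CR.embed_of_surj (A := Multiplicative X) (B := Multiplicative Y)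
    (AddMonoidHom.toMultiplicative (QuotientAddGroup.mk' mulμ.range)) (by
      intro z
      obtain ⟨t, ht⟩ := QuotientAddGroup.mk'_surjective mulμ.range z.toAdd
      exact ⟨Multiplicative.ofAdd t, congrArg Multiplicative.ofAdd ht⟩)
  let ι : Multiplicative X →* G :=
    { toFun := fun z => Additive.toMul (z.toAdd : Additive G)
      map_one' := rfl
      map_mul' := fun _ _ => rfl }
  have hι : Function.Injective ι := by
    intro z z' h
    exact Multiplicative.toAdd.injective (Subtype.ext (Additive.toMul.injective h))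
  exact ⟨(ι.comp ψ).comp f.toMultiplicative, (hι.comp hψ).comp hf⟩

section
variable {A : Type} [Field A] [CharZero A] [Algebra.IsAlgebraic ℚ A] [IsAlgClosed A] {n : ℕ} (c : Conf A n)

open Conf in
/-- The rank of the class group. -/
theorem rank_of_conf {M N μ : ℕ} [NeZero μ] (P : Fin N → ℕ) [hP : ∀ k, Fact (P k).Prime] (a b : Fin N → Fin n)
    (hM : M ≠ 0) (hn : n = M + 2) (hinj : Function.Injective P) (hA : ∀ k, TypeA c M (P k) (a k) (b k))
    (q : ℕ) [Fact q.Prime] (hMq : M < q) (hqM : M ∣ q + 1) (hq : ∀ i, c.θ i ∈ Q A q)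
    (hμ : ∀ t : ℤ, (M : ℤ) ∣ 2 * t → (μ : ℤ) ∣ t) :
    ∃ f : Multiplicative (Fin (N - M ^ (n.choose 2) * 2 ^ (n ^ 4)) → ZMod μ) →* ClassGroup (𝓞 c.K),
      Function.Injective f := by
  classical
  have : NeZero M := ⟨hM⟩
  obtain ⟨T, hT, U, hTc, hU⟩ := Pool.Agent.R493.CR.unit_classes c.K M
  rw [c.finrank_K] at hTc
  let x : Fin N → ClassGroup (𝓞 c.K) := fun k =>
    ClassGroup.mk0 (c.idl' (P k) (-1)) * (ClassGroup.mk0 (c.idl' (P k) 1))⁻¹
  have hab : ∀ k, a k ≠ b k := fun k => (hA k).ab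
  -- the element and the unit attached to a relation
  have hz : ∀ v : {v : Fin N → ℤ // ∏ k, x k ^ v k = 1}, ∃ z, Rel c M P a b z v.1 := fun v =>
    rel_of_class hM hinj hA v.1 v.2
  choose z hz using hz
  have hu : ∀ v, ∃ u : (𝓞 c.K)ˣ, ((((u : 𝓞 c.K) : c.K) : A)) = c.be (z v) c.i0 * c.be (z v) c.i1 / z v ^ M :=
    fun v => (hz v).unit hn hab
  choose u hu using hu
  -- base points of the classes
  obtain ⟨base, hbase⟩ : ∃ base : T → Option {v : Fin N → ℤ // ∏ k, x k ^ v k = 1},
      ∀ v, ∃ w, base (U (u v)) = some w ∧ U (u w) = U (u v) := by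
    refine ⟨fun t => if h : ∃ w, U (u w) = t then some h.choose else none, ?_⟩
    intro v
    have h : ∃ w, U (u w) = U (u v) := ⟨v, rfl⟩
    refine ⟨h.choose, ?_, h.choose_spec⟩
    simp only
    rw [dif_pos h]
  choose w hw1 hw2 using hbase
  -- the element `γ`
  have hγ : ∀ v, ∃ γ ∈ c.K, γ ≠ 0 ∧ c.be (z v / z (w v)) c.i0 * c.be (z v / z (w v)) c.i1 = γ ^ M := by
    intro v
    obtain ⟨e, he⟩ := hU _ _ (hw2 v)
    have h1 := congrArg (fun t : (𝓞 c.K)ˣ => ((((t : 𝓞 c.K) : c.K) : A))) he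
    simp only [Units.val_mul, Units.val_pow_eq_pow_val] at h1
    push_cast at h1
    rw [hu, hu] at h1
    have hz1 := (hz v).ne
    have hz2 := (hz (w v)).ne
    have hb1 := c.be_ne_zero hz2 c.i0
    have hb2 := c.be_ne_zero hz2 c.i1
    have he0 : ((((e : 𝓞 c.K) : c.K) : A)) ≠ 0 := by
      intro h0
      have h2 : ((e : 𝓞 c.K) : c.K) = 0 := Subtype.ext h0
      have h3 : (e : 𝓞 c.K) = 0 := by exact_mod_cast h2
      exact e.ne_zero h3
    refine ⟨((((e : 𝓞 c.K) : c.K) : A)) * (z v / z (w v)), mul_mem (SetLike.coe_mem _) (div_mem (hz v).mem (hz (w v)).mem),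
      mul_ne_zero he0 (div_ne_zero hz1 hz2), ?_⟩
    rw [c.be_div, c.be_div, mul_pow, div_pow]
    field_simp at h1 ⊢
    linear_combination h1
  choose γ hγ1 hγ0 hγ2 using hγ
  -- the signs
  let sg : {v : Fin N → ℤ // ∏ k, x k ^ v k = 1} → (Fin n → Fin n → Fin n → Fin n → Bool) := fun v i j k l =>
    decide (c.s i j (γ v) * c.s k l (γ v) / (c.s i k (γ v) * c.s j l (γ v)) = 1)
  apply rank_of_relations (ClassGroup (𝓞 c.K)) μ N _ x (T × (Fin n → Fin n → Fin n → Fin n → Bool)) ?_
    (fun v => (U (u v), sg v))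
  · -- the divisibility
    intro v v' h
    rw [Prod.mk.injEq] at h
    obtain ⟨h1, h2⟩ := h
    have hww : w v = w v' := by
      have h3 := hw1 v
      rw [h1, hw1 v'] at h3
      exact (Option.some.inj h3).symm
    have hrel := (hz v).div (hz v')
    have hpow : c.be (z v' / z v) c.i0 * c.be (z v' / z v) c.i1 = (γ v' / γ v) ^ M := by
      rw [div_pow, ← hγ2, ← hγ2, ← hww]
      simp only [c.be_div]
      have e1 := c.be_ne_zero (hz v).ne c.i0
      have e2 := c.be_ne_zero (hz v).ne c.i1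
      have e3 := c.be_ne_zero (hz (w v)).ne c.i0
      have e4 := c.be_ne_zero (hz (w v)).ne c.i1
      field_simp
    have hmem : γ v' / γ v ∈ c.K := div_mem (hγ1 v') (hγ1 v)
    intro k
    apply hμ
    have hfin := hrel.dvd hM hn hA hmem hpow ?_ k
    · exact hfin
    · intro i j k l hij hik hil hjk hjl hkl
      have hs := congrFun (congrFun (congrFun (congrFun h2 i) j) k) l
      simp only [sg, decide_eq_decide] at hs
      have hk1 := ((hz (w v)).div (hz v)).kappa hM q hMq hqM hq (hγ1 v) (hγ2 v) hij hkl hik hjl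
      have hk2 := ((hz (w v')).div (hz v')).kappa hM q hMq hqM hq (hγ1 v') (hγ2 v') hij hkl hik hjl
      have hne : (-1 : A) ≠ 1 := by norm_num
      have heq : c.s i j (γ v) * c.s k l (γ v) / (c.s i k (γ v) * c.s j l (γ v)) =
          c.s i j (γ v') * c.s k l (γ v') / (c.s i k (γ v') * c.s j l (γ v')) := by
        rcases hk1 with e1 | e1
        · rw [e1, hs.1 e1]
        · rcases hk2 with e2 | e2
          · rw [e2, hs.2 e2]
          · rw [e1, e2]
      have n1 := c.s_ne_zero (hγ0 v) i j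
      have n2 := c.s_ne_zero (hγ0 v) k l
      have n3 := c.s_ne_zero (hγ0 v) i k
      have n4 := c.s_ne_zero (hγ0 v) j l
      have n5 := c.s_ne_zero (hγ0 v') i k
      have n6 := c.s_ne_zero (hγ0 v') j l
      rw [div_eq_div_iff (mul_ne_zero n3 n4) (mul_ne_zero n5 n6)] at heq
      rw [map_div₀, map_div₀, map_div₀, map_div₀]
      field_simp
      linear_combination -heq
  · -- the number of the classes
    rw [Nat.card_prod, Nat.card_eq_fintype_card, Nat.card_eq_fintype_card]
    have h1 : Fintype.card (Fin n → Fin n → Fin n → Fin n → Bool) = 2 ^ (n ^ 4) := by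
      simp only [Fintype.card_pi, Finset.prod_const, Finset.card_univ, Fintype.card_fin, Fintype.card_bool]
      rw [← pow_mul, ← pow_mul, ← pow_mul]
      congr 1
      ring
    rw [h1]
    calc Fintype.card T * 2 ^ (n ^ 4) ≤ M ^ (n.choose 2) * 2 ^ (n ^ 4) := Nat.mul_le_mul_right _ hTc
      _ ≤ 2 ^ (M ^ (n.choose 2) * 2 ^ (n ^ 4)) := Nat.lt_two_pow_self.le

end

end Pool.Agent.H450.GG
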