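import Pool.Agent.H450.GG.Field
import Pool.Agent.H450.GG.Cont

set_option autoImplicit false
set_option linter.unusedSectionVars false

namespace Pool.Agent.H450.GG

open Module NumberField
open scoped nonZeroDivisors

/-- The prime `p` has type `A` with respect to the roots number `a` and `b`. -/
structure TypeA {A : Type} [Field A] [CharZero A] [Algebra.IsAlgebraic ℚ A] {n : ℕ} (c : Conf A n) (M : ℕ)
    (p : ℕ) [Fact p.Prime] (a b : Fin n) : Prop where
  two : 2 < p
  ab : a ≠ b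
  wa : W p (c.θ a - 1) = (p : ℝ)⁻¹
  wb : W p (c.θ b + 1) = (p : ℝ)⁻¹
  qa : c.θ a ∈ Q A p
  small : ∀ i, i ≠ a → i ≠ b → W p (c.θ i) ^ M = (p : ℝ)⁻¹

/-- the absolute value of the small roots -/
noncomputable def rho (M p : ℕ) : ℝ := ((p : ℝ)⁻¹) ^ ((M : ℝ)⁻¹)

theorem rho_pos (M p : ℕ) [Fact p.Prime] : 0 < rho M p := Real.rpow_pos_of_pos (inv_p_pos p) _

theorem rho_pow {M : ℕ} (hM : M ≠ 0) (p : ℕ) [Fact p.Prime] : rho M p ^ M = (p : ℝ)⁻¹ :=
  Real.rpow_inv_natCast_pow (inv_p_pos p).le hM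

theorem rho_lt {M : ℕ} (hM : M ≠ 0) (p : ℕ) [Fact p.Prime] : rho M p < 1 := by
  by_contra hcon
  push Not at hcon
  have h1 := one_le_pow₀ hcon (n := M)
  rw [rho_pow hM] at h1
  exact absurd h1 (not_le.2 (inv_p_lt p))

theorem le_rho {M : ℕ} (hM : M ≠ 0) (p : ℕ) [Fact p.Prime] : (p : ℝ)⁻¹ ≤ rho M p := by
  rw [← rho_pow hM p]
  exact pow_le_of_le_one (rho_pos M p).le (rho_lt hM p).le hM

/-- the exponent pattern: `1` at the pairs `{a, s}`, `-1` at the pairs `{b, s}` -/
def ex {n : ℕ} (a b i j : Fin n) : ℤ :=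
  if (i = a ∧ j ≠ b) ∨ (j = a ∧ i ≠ b) then 1 else if (i = b ∧ j ≠ a) ∨ (j = b ∧ i ≠ a) then -1 else 0

namespace Conf

section
variable {A : Type} [Field A] [CharZero A] [Algebra.IsAlgebraic ℚ A] [IsAlgClosed A] {n : ℕ} (c : Conf A n)

theorem of_int {z : c.K} (h : IsIntegral ℤ (z : A)) : IsIntegral ℤ z :=
  (isIntegral_algHom_iff (IntermediateField.val c.K |>.restrictScalars ℤ) Subtype.val_injective).1 h

/-- integral generators -/
noncomputable def xo : 𝓞 c.K := ⟨⟨c.x, c.x_mem⟩, c.of_int c.x_int⟩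

noncomputable def yo : 𝓞 c.K := ⟨⟨c.y, c.y_mem⟩, c.of_int c.y_int⟩

/-- the absolute values of `K` -/
noncomputable def wv (p : ℕ) [Fact p.Prime] (i j : Fin n) : 𝓞 c.K →*₀ ℝ where
  toFun z := W p (c.s i j ((z : c.K) : A))
  map_zero' := by simp [W_zero]
  map_one' := by simp [W_one]
  map_mul' := by intro x y; simp [W_mul]

theorem wv_apply (p : ℕ) [Fact p.Prime] (i j : Fin n) (z : 𝓞 c.K) :
    c.wv p i j z = W p (c.s i j ((z : c.K) : A)) := rfl

theorem int_of {z : c.K} (hz : IsIntegral ℤ z) : IsIntegral ℤ (z : A) :=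
  hz.map (IntermediateField.val c.K |>.restrictScalars ℤ)

theorem wv_na (p : ℕ) [Fact p.Prime] (i j : Fin n) : IsNA (c.wv p i j) where
  na x y := by
    rw [wv_apply, wv_apply, wv_apply]
    push_cast
    rw [map_add]
    exact W_add_le p _ _
  le x := by
    rw [wv_apply]
    apply W_integral
    exact (c.int_of x.2).map ((c.s i j : A →ₐ[ℚ] A).restrictScalars ℤ)
  nonneg x := W_nonneg p _
  ne x hx := by
    rw [wv_apply]
    intro h
    rw [W_eq_zero, map_eq_zero] at h
    apply hx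
    have h1 : (x : c.K) = 0 := Subtype.ext h
    exact_mod_cast h1

theorem wv_x (p : ℕ) [Fact p.Prime] {i j : Fin n} (hij : i ≠ j) (z : ℤ) :
    c.wv p i j (c.xo + z) = W p (c.θ i + c.θ j + z) := by
  rw [wv_apply]
  push_cast
  have h1 : ((c.xo : c.K) : A) = c.x := rfl
  rw [h1, map_add]
  unfold x
  rw [map_add, (c.s_spec hij).1, (c.s_spec hij).2]
  congr 2
  simp

theorem wv_y (p : ℕ) [Fact p.Prime] {i j : Fin n} (hij : i ≠ j) :
    c.wv p i j c.yo = W p (c.θ i) * W p (c.θ j) := by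
  rw [wv_apply]
  have h1 : ((c.yo : c.K) : A) = c.y := rfl
  rw [h1]
  unfold y
  rw [map_mul, (c.s_spec hij).1, (c.s_spec hij).2, W_mul]

theorem wv_nat (p : ℕ) [Fact p.Prime] (i j : Fin n) (q : ℕ) : c.wv p i j (q : 𝓞 c.K) = W p (q : A) := by
  rw [wv_apply]
  congr 1
  push_cast
  exact map_natCast _ _

/-- the ideals `(q, y, x + e)` -/
noncomputable def idl (q : ℕ) (e : ℤ) : Ideal (𝓞 c.K) := Ideal.span {(q : 𝓞 c.K), c.yo, c.xo + e}

theorem idl_ne (q : ℕ) (hq : q ≠ 0) (e : ℤ) : c.idl q e ≠ 0 := by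
  intro h
  have h1 : (q : 𝓞 c.K) ∈ c.idl q e := Ideal.subset_span (by simp)
  rw [h] at h1
  have h2 : (q : 𝓞 c.K) = 0 := by simpa using h1
  exact hq (by exact_mod_cast h2)

noncomputable def idl' (q : ℕ) [Fact q.Prime] (e : ℤ) : (Ideal (𝓞 c.K))⁰ :=
  ⟨c.idl q e, mem_nonZeroDivisors_iff_ne_zero.2 (c.idl_ne q (Fact.out : q.Prime).ne_zero e)⟩

theorem cont_idl (p q : ℕ) [Fact p.Prime] (e : ℤ) {i j : Fin n} (hij : i ≠ j) {t : ℝ}
    (h1 : W p (q : A) ≤ t) (h2 : W p (c.θ i) * W p (c.θ j) ≤ t) (h3 : W p (c.θ i + c.θ j + e) ≤ t)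
    (h4 : W p (q : A) = t ∨ W p (c.θ i) * W p (c.θ j) = t ∨ W p (c.θ i + c.θ j + e) = t) :
    cont (c.wv p i j) (c.idl q e) = t := by
  unfold idl
  apply cont_span (c.wv_na p i j)
  · rintro z (rfl | rfl | hz)
    · rw [wv_nat]; exact h1
    · rw [c.wv_y p hij]; exact h2
    · rw [Set.mem_singleton_iff] at hz
      rw [hz, c.wv_x p hij]; exact h3
  · rcases h4 with h4 | h4 | h4
    · exact ⟨(q : 𝓞 c.K), by simp, by rw [wv_nat]; exact h4⟩
    · exact ⟨c.yo, by simp, by rw [c.wv_y p hij]; exact h4⟩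
    · exact ⟨c.xo + e, by simp, by rw [c.wv_x p hij]; exact h4⟩

theorem W_theta_le (p : ℕ) [Fact p.Prime] (i : Fin n) : W p (c.θ i) ≤ 1 := W_integral p (c.int i)

theorem W_mul_le (p : ℕ) [Fact p.Prime] (i j : Fin n) : W p (c.θ i) * W p (c.θ j) ≤ 1 :=
  mul_le_one₀ (c.W_theta_le p i) (W_nonneg p _) (c.W_theta_le p j)

theorem W_sum_le (p : ℕ) [Fact p.Prime] (i j : Fin n) (e : ℤ) : W p (c.θ i + c.θ j + e) ≤ 1 := by
  refine (W_add_le p _ _).trans (max_le ((W_add_le p _ _).trans (max_le (c.W_theta_le p i) (c.W_theta_le p j))) (W_int_le p e))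

/-- other primes -/
theorem cont_other (p q : ℕ) [Fact p.Prime] (hq : q.Prime) (hpq : p ≠ q) (e : ℤ) {i j : Fin n} (hij : i ≠ j) :
    cont (c.wv p i j) (c.idl q e) = 1 := by
  have h1 : W p (q : A) = 1 := by
    have := W_int_eq (A := A) p (z := (q : ℤ)) (by
      intro h
      have h2 : p ∣ q := by exact_mod_cast h
      rcases (Nat.dvd_prime hq).1 h2 with h3 | h3
      · exact (Fact.out : p.Prime).one_lt.ne' h3
      · exact hpq h3)
    simpa using this
  exact c.cont_idl p q e hij h1.le (c.W_mul_le p i j) (c.W_sum_le p i j e) (Or.inl h1)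

/-- the approximate values of the roots -/
def eps (a b i : Fin n) : ℤ := if i = a then 1 else if i = b then -1 else 0

variable {c} {M p : ℕ} [Fact p.Prime] {a b : Fin n} (hA : TypeA c M p a b)
include hA

theorem W_a : W p (c.θ a) = 1 := by
  have h1 := W_int_sub p (x := c.θ a) (c := 1) (d := 0) (by
    have h := hA.wa
    simp only [Int.cast_one]
    rw [h]
    exact inv_p_lt p) (p_not_dvd_of_abs p (by norm_num) (by have := hA.two; norm_num; omega))
  simpa using h1

theorem W_b : W p (c.θ b) = 1 := by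
  have h1 := W_int_sub p (x := c.θ b) (c := -1) (d := 0) (by
    have h := hA.wb
    simp only [Int.cast_neg, Int.cast_one, sub_neg_eq_add]
    rw [h]
    exact inv_p_lt p) (p_not_dvd_of_abs p (by norm_num) (by have := hA.two; norm_num; omega))
  simpa using h1

theorem W_small (hM : M ≠ 0) {i : Fin n} (h1 : i ≠ a) (h2 : i ≠ b) : W p (c.θ i) = rho M p := by
  have h := hA.small i h1 h2
  rw [← rho_pow hM p] at h
  exact (pow_left_inj₀ (W_nonneg p _) (rho_pos M p).le hM).1 h

theorem W_eps (hM : M ≠ 0) (i : Fin n) : W p (c.θ i - eps a b i) ≤ rho M p := by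
  unfold eps
  split_ifs with h1 h2
  · rw [h1]
    have := hA.wa
    push_cast
    rw [this]
    exact le_rho hM p
  · rw [h2]
    have := hA.wb
    push_cast
    rw [sub_neg_eq_add, this]
    exact le_rho hM p
  · push_cast
    rw [sub_zero, W_small hA hM h1 h2]

theorem W_eps_sum (hM : M ≠ 0) (i j : Fin n) (e : ℤ) :
    W p (c.θ i + c.θ j + e - (eps a b i + eps a b j + e : ℤ)) ≤ rho M p := by
  have h1 : c.θ i + c.θ j + e - ((eps a b i + eps a b j + e : ℤ) : A) =
      (c.θ i - eps a b i) + (c.θ j - eps a b j) := by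
    push_cast
    ring
  rw [h1]
  exact (W_add_le p _ _).trans (max_le (W_eps hA hM i) (W_eps hA hM j))

theorem cont_unit (hM : M ≠ 0) (e : ℤ) {i j : Fin n} (hij : i ≠ j) (h : ¬ (p : ℤ) ∣ eps a b i + eps a b j + e) :
    cont (c.wv p i j) (c.idl p e) = 1 := by
  have h1 : W p (c.θ i + c.θ j + e) = 1 := by
    have h2 := W_eps_sum hA hM i j e
    have h3 : W p (((eps a b i + eps a b j + e : ℤ) : A)) = 1 := W_int_eq p h
    rw [W_eq_of_sub_lt p (y := ((eps a b i + eps a b j + e : ℤ) : A)), h3]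
    rw [h3]
    exact lt_of_le_of_lt h2 (rho_lt hM p)
  have h4 : W p (p : A) ≤ 1 := by rw [W_p]; exact (inv_p_lt p).le
  exact c.cont_idl p p e hij h4 (c.W_mul_le p i j) (c.W_sum_le p i j e) (Or.inr (Or.inr h1))

theorem cont_rho (hM : M ≠ 0) (e : ℤ) {i j : Fin n} (hij : i ≠ j) (h : eps a b i + eps a b j + e = 0)
    (hW : W p (c.θ i) * W p (c.θ j) = rho M p) :
    cont (c.wv p i j) (c.idl p e) = rho M p := by
  have h2 := W_eps_sum hA hM i j e
  rw [h, Int.cast_zero, sub_zero] at h2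
  exact c.cont_idl p p e hij (by rw [W_p]; exact le_rho hM p) hW.le h2 (Or.inr (Or.inl hW))

theorem not_dvd_small {z : ℤ} (h0 : z ≠ 0) (h : z.natAbs ≤ 2) : ¬ (p : ℤ) ∣ z :=
  p_not_dvd_of_abs p h0 (by have := hA.two; omega)

/-- The ratio of the contents. -/
theorem cont_ratio (hM : M ≠ 0) {i j : Fin n} (hij : i ≠ j) :
    cont (c.wv p i j) (c.idl p (-1)) / cont (c.wv p i j) (c.idl p 1) = rho M p ^ ex a b i j := by
  have hab := hA.ab
  have ea : eps a b a = 1 := by simp [eps]
  have eb : eps a b b = -1 := by simp [eps, hab.symm]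
  have es : ∀ k : Fin n, k ≠ a → k ≠ b → eps a b k = 0 := fun k h1 h2 => by simp [eps, h1, h2]
  have u1 : ∀ {i j : Fin n}, i ≠ j → eps a b i + eps a b j + 1 ≠ 0 → (eps a b i + eps a b j + 1).natAbs ≤ 2 →
      cont (c.wv p i j) (c.idl p 1) = 1 := fun hij h1 h2 =>
    cont_unit hA hM 1 hij (not_dvd_small hA h1 h2)
  have u2 : ∀ {i j : Fin n}, i ≠ j → eps a b i + eps a b j + (-1) ≠ 0 → (eps a b i + eps a b j + (-1)).natAbs ≤ 2 →
      cont (c.wv p i j) (c.idl p (-1)) = 1 := fun hij h1 h2 =>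
    cont_unit hA hM (-1) hij (not_dvd_small hA h1 h2)
  have hr := (rho_pos M p).ne'
  by_cases hia : i = a
  · subst hia
    by_cases hjb : j = b
    · subst hjb
      have h1 : ex i j i j = 0 := by simp [ex, hij, hij.symm]
      rw [h1, zpow_zero, u1 hij (by rw [ea, eb]; norm_num) (by rw [ea, eb]; norm_num),
        u2 hij (by rw [ea, eb]; norm_num) (by rw [ea, eb]; norm_num), div_one]
    · have h1 : ex i b i j = 1 := by simp [ex, hjb]
      have h2 := es j hij.symm hjb
      rw [h1, zpow_one, u1 hij (by rw [ea, h2]; norm_num) (by rw [ea, h2]; norm_num),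
        cont_rho hA hM (-1) hij (by rw [ea, h2]; norm_num) (by rw [W_a hA, one_mul, W_small hA hM hij.symm hjb]),
        div_one]
  · by_cases hib : i = b
    · subst hib
      by_cases hja : j = a
      · subst hja
        have h1 : ex j i i j = 0 := by simp [ex, hij, hij.symm]
        rw [h1, zpow_zero, u1 hij (by rw [ea, eb]; norm_num) (by rw [ea, eb]; norm_num),
          u2 hij (by rw [ea, eb]; norm_num) (by rw [ea, eb]; norm_num), div_one]
      · have h1 : ex a i i j = -1 := by simp [ex, hja, hia]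
        have h2 := es j hja hij.symm
        rw [h1, u2 hij (by rw [eb, h2]; norm_num) (by rw [eb, h2]; norm_num),
          cont_rho hA hM 1 hij (by rw [eb, h2]; norm_num) (by rw [W_b hA, one_mul, W_small hA hM hja hij.symm]),
          zpow_neg, zpow_one, one_div]
    · by_cases hja : j = a
      · subst hja
        have h1 : ex j b i j = 1 := by simp [ex, hib]
        have h2 := es i hia hib
        rw [h1, zpow_one, u1 hij (by rw [ea, h2]; norm_num) (by rw [ea, h2]; norm_num),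
          cont_rho hA hM (-1) hij (by rw [ea, h2]; norm_num) (by rw [W_a hA, mul_one, W_small hA hM hia hib]),
          div_one]
      · by_cases hjb : j = b
        · subst hjb
          have h1 : ex a j i j = -1 := by simp [ex, hia, hja, hib]
          have h2 := es i hia hib
          rw [h1, u2 hij (by rw [eb, h2]; norm_num) (by rw [eb, h2]; norm_num),
            cont_rho hA hM 1 hij (by rw [eb, h2]; norm_num) (by rw [W_b hA, mul_one, W_small hA hM hia hib]),
            zpow_neg, zpow_one, one_div]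
        · have h1 : ex a b i j = 0 := by simp [ex, hia, hib, hja, hjb]
          have h2 := es i hia hib
          have h3 := es j hja hjb
          rw [h1, zpow_zero, u1 hij (by rw [h2, h3]; norm_num) (by rw [h2, h3]; norm_num),
            u2 hij (by rw [h2, h3]; norm_num) (by rw [h2, h3]; norm_num), div_one]

end

end Conf

end Pool.Agent.H450.GG
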