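import Pool.Agent.H450.GG.Rel

set_option autoImplicit false
set_option linter.unusedSectionVars false

namespace Pool.Agent.H450.GG

open Module NumberField
open scoped nonZeroDivisors

namespace Conf

theorem ex_eq {n : ℕ} {a b i j : Fin n} (hab : a ≠ b) (hij : i ≠ j) : ex a b i j = eps a b i + eps a b j := by
  unfold ex eps
  by_cases h1 : i = a <;> by_cases h2 : i = b <;> by_cases h3 : j = a <;> by_cases h4 : j = b <;>
    simp_all

theorem sum_eps {n : ℕ} {a b : Fin n} (hab : a ≠ b) : ∑ j, eps a b j = 0 := by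
  classical
  rw [← Finset.add_sum_erase _ _ (Finset.mem_univ a), ← Finset.add_sum_erase _ _ (Finset.mem_erase.2 ⟨hab.symm, Finset.mem_univ b⟩)]
  rw [Finset.sum_eq_zero]
  · simp [eps, hab.symm]
  · intro k hk
    rw [Finset.mem_erase, Finset.mem_erase] at hk
    simp [eps, hk.1, hk.2.1]

theorem sum_ex {n M : ℕ} (hn : n = M + 2) {a b : Fin n} (hab : a ≠ b) (i : Fin n) :
    ∑ j ∈ Finset.univ.erase i, ex a b i j = M * eps a b i := by
  classical
  have h1 : ∑ j ∈ Finset.univ.erase i, ex a b i j = ∑ j ∈ Finset.univ.erase i, (eps a b i + eps a b j) :=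
    Finset.sum_congr rfl fun j hj => ex_eq hab (Finset.ne_of_mem_erase hj).symm
  rw [h1, Finset.sum_add_distrib, Finset.sum_const, Finset.card_erase_of_mem (Finset.mem_univ i), Finset.card_univ,
    Fintype.card_fin]
  have h2 := Finset.add_sum_erase Finset.univ (fun j => eps a b j) (Finset.mem_univ i)
  rw [sum_eps hab] at h2
  have h3 : ∑ j ∈ Finset.univ.erase i, eps a b j = - eps a b i := by linarith
  rw [h3, nsmul_eq_mul]
  have h4 : ((n - 1 : ℕ) : ℤ) = M + 1 := by omega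
  rw [h4]
  ring

section
variable {A : Type} [Field A] [CharZero A] [Algebra.IsAlgebraic ℚ A] [IsAlgClosed A] {n : ℕ} (c : Conf A n)
variable (M : ℕ) {N : ℕ} (P : Fin N → ℕ) [hP : ∀ k, Fact (P k).Prime] (a b : Fin N → Fin n)

/-- `z` generates `∏ (B k / C k) ^ v k` -/
structure Rel (z : A) (v : Fin N → ℤ) : Prop where
  mem : z ∈ c.K
  ne : z ≠ 0
  at_P : ∀ k, ∀ i j, i ≠ j → W (P k) (c.s i j z) = rho M (P k) ^ (ex (a k) (b k) i j * v k)
  off : ∀ (p : ℕ) [Fact p.Prime], (∀ k, P k ≠ p) → ∀ i j, i ≠ j → W p (c.s i j z) = 1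

variable {c M P a b}

theorem Rel.div {z z' : A} {v v' : Fin N → ℤ} (h : Rel c M P a b z v) (h' : Rel c M P a b z' v') :
    Rel c M P a b (z' / z) (v' - v) where
  mem := div_mem h'.mem h.mem
  ne := div_ne_zero h'.ne h.ne
  at_P k i j hij := by
    rw [map_div₀, W_div, h.at_P k i j hij, h'.at_P k i j hij, ← zpow_sub₀ (rho_pos M (P k)).ne']
    congr 1
    rw [Pi.sub_apply]
    ring
  off p _ hp i j hij := by
    rw [map_div₀, W_div, h.off p hp i j hij, h'.off p hp i j hij, div_one]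

/-- relations between the classes -/
theorem rel_of_class (hM : M ≠ 0) (hinj : Function.Injective P) (hA : ∀ k, TypeA c M (P k) (a k) (b k))
    (v : Fin N → ℤ)
    (h : ∏ k, (ClassGroup.mk0 (c.idl' (P k) (-1)) * (ClassGroup.mk0 (c.idl' (P k) 1))⁻¹) ^ (v k) = 1) :
    ∃ z, Rel c M P a b z v := by
  classical
  obtain ⟨x, y, hx, hy, hxy⟩ := exists_quot _ _ v h
  have hx0 : (((x : c.K) : A)) ≠ 0 := by
    intro h0
    apply hx
    have h1 : (x : c.K) = 0 := Subtype.ext h0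
    exact_mod_cast h1
  have hy0 : (((y : c.K) : A)) ≠ 0 := by
    intro h0
    apply hy
    have h1 : (y : c.K) = 0 := Subtype.ext h0
    exact_mod_cast h1
  refine ⟨((y : c.K) : A) / ((x : c.K) : A), div_mem (y : c.K).2 (x : c.K).2, div_ne_zero hy0 hx0, ?_, ?_⟩
  · intro k i j hij
    rw [map_div₀, W_div]
    have h1 := hxy (c.wv (P k) i j) (c.wv_na (P k) i j)
    rw [wv_apply, wv_apply] at h1
    rw [h1, Finset.prod_eq_single k]
    · have h2 := cont_ratio (hA k) hM hij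
      rw [zpow_mul, ← h2]
      rfl
    · intro l _ hl
      have h3 : P k ≠ P l := fun h => hl (hinj h).symm
      have h4 : ∀ e : ℤ, cont (c.wv (P k) i j) (c.idl' (P l) e : Ideal (𝓞 c.K)) = 1 := fun e =>
        c.cont_other (P k) (P l) (hP l).out h3 e hij
      rw [h4, h4, div_one, one_zpow]
    · intro h; exact absurd (Finset.mem_univ k) h
  · intro p _ hp i j hij
    rw [map_div₀, W_div]
    have h1 := hxy (c.wv p i j) (c.wv_na p i j)
    rw [wv_apply, wv_apply] at h1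
    rw [h1]
    apply Finset.prod_eq_one
    intro l _
    have h4 : ∀ e : ℤ, cont (c.wv p i j) (c.idl' (P l) e : Ideal (𝓞 c.K)) = 1 := fun e =>
      c.cont_other p (P l) (hP l).out (hp l).symm e hij
    rw [h4, h4, div_one, one_zpow]

theorem Rel.be_P (hn : n = M + 2) (hab : ∀ k, a k ≠ b k) {z : A} {v : Fin N → ℤ} (h : Rel c M P a b z v)
    (k : Fin N) (i : Fin n) : W (P k) (c.be z i) = rho M (P k) ^ (M * eps (a k) (b k) i * v k) := by
  unfold be
  rw [W_prod, ← sum_ex hn (hab k) i, Finset.sum_mul]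
  have h1 : ∀ s : Finset (Fin n), ∀ g : Fin n → ℤ, rho M (P k) ^ (∑ j ∈ s, g j) = ∏ j ∈ s, rho M (P k) ^ g j := by
    intro s g
    classical
    induction s using Finset.induction_on with
    | empty => simp
    | insert x s hx ih => rw [Finset.sum_insert hx, Finset.prod_insert hx, zpow_add₀ (rho_pos M (P k)).ne', ih]
  rw [h1]
  exact Finset.prod_congr rfl fun j hj => h.at_P k i j (Finset.ne_of_mem_erase hj).symm

theorem Rel.be_off {z : A} {v : Fin N → ℤ} (h : Rel c M P a b z v) (p : ℕ) [Fact p.Prime] (hp : ∀ k, P k ≠ p)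
    (i : Fin n) : W p (c.be z i) = 1 := by
  unfold be
  rw [W_prod]
  exact Finset.prod_eq_one fun j hj => h.off p hp i j (Finset.ne_of_mem_erase hj).symm

/-- the unit attached to a relation -/
theorem Rel.unit (hn : n = M + 2) (hab : ∀ k, a k ≠ b k) {z : A} {v : Fin N → ℤ} (h : Rel c M P a b z v) :
    ∃ u : (𝓞 c.K)ˣ, ((((u : 𝓞 c.K) : c.K) : A)) = c.be z c.i0 * c.be z c.i1 / z ^ M := by
  set e := c.be z c.i0 * c.be z c.i1 / z ^ M with he
  have hmem : e ∈ c.K := div_mem (c.be_mem h.mem) (pow_mem h.mem M)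
  have hne : e ≠ 0 := div_ne_zero (mul_ne_zero (c.be_ne_zero h.ne _) (c.be_ne_zero h.ne _)) (pow_ne_zero M h.ne)
  have hs : ∀ i j, i ≠ j → c.s i j e = c.be z i * c.be z j / (c.s i j z) ^ M := by
    intro i j hij
    rw [he, map_div₀, c.s_be h.mem hij, map_pow]
  have hW : ∀ (p : ℕ) [Fact p.Prime] (i j : Fin n), i ≠ j → W p (c.s i j e) = 1 := by
    intro p _ i j hij
    rw [hs i j hij, W_div, W_mul, W_pow]
    by_cases hp : ∃ k, P k = p
    · obtain ⟨k, rfl⟩ := hp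
      have e1 : ∀ inst : Fact (P k).Prime, inst = hP k := fun _ => rfl
      rw [h.be_P hn hab k i, h.be_P hn hab k j, h.at_P k i j hij, ← zpow_natCast, ← zpow_mul,
        ← zpow_add₀ (rho_pos M (P k)).ne', ← zpow_sub₀ (rho_pos M (P k)).ne', ex_eq (hab k) hij]
      have h2 : (M : ℤ) * eps (a k) (b k) i * v k + M * eps (a k) (b k) j * v k -
          (eps (a k) (b k) i + eps (a k) (b k) j) * v k * M = 0 := by ring
      rw [h2, zpow_zero]
    · push Not at hp
      rw [h.be_off p hp, h.be_off p hp, h.off p hp i j hij]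
      norm_num
  have hWσ : ∀ (p : ℕ) [Fact p.Prime] (σ : A ≃ₐ[ℚ] A), W p (σ e) = 1 := by
    intro p _ σ
    rw [c.eq_s_pm σ hmem]
    exact hW p _ _ (fun h => c.h01 (c.pm_inj σ h))
  have h1 : IsIntegral ℤ e := integral_of_W fun p _ σ => (hWσ p σ).le
  have h2 : IsIntegral ℤ e⁻¹ := integral_of_W fun p _ σ => by
    rw [map_inv₀, W_inv, hWσ p σ, inv_one]
  let e1 : 𝓞 c.K := ⟨⟨e, hmem⟩, c.of_int h1⟩
  let e2 : 𝓞 c.K := ⟨⟨e⁻¹, inv_mem hmem⟩, c.of_int h2⟩
  have h3 : e1 * e2 = 1 := by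
    apply RingOfIntegers.ext
    apply Subtype.ext
    show e * e⁻¹ = 1
    exact mul_inv_cancel₀ hne
  exact ⟨⟨e1, e2, h3, by rw [mul_comm]; exact h3⟩, rfl⟩

/-- The main divisibility. -/
theorem Rel.dvd (hM : M ≠ 0) (hn : n = M + 2) (hA : ∀ k, TypeA c M (P k) (a k) (b k)) {z : A}
    {v : Fin N → ℤ} (h : Rel c M P a b z v) {γ : A} (hγ : γ ∈ c.K)
    (hp : c.be z c.i0 * c.be z c.i1 = γ ^ M)
    (hκ : ∀ i j k l : Fin n, i ≠ j → i ≠ k → i ≠ l → j ≠ k → j ≠ l → k ≠ l →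
      c.s i j γ * c.s k l γ = c.s i k γ * c.s j l γ) (k : Fin N) : (M : ℤ) ∣ 2 * v k := by
  classical
  have hγ0 : γ ≠ 0 := by
    rintro rfl
    rw [zero_pow hM] at hp
    exact mul_ne_zero (c.be_ne_zero h.ne _) (c.be_ne_zero h.ne _) hp
  have hpw : ∀ i j, i ≠ j → c.be z i * c.be z j = c.s i j γ ^ M := by
    intro i j hij
    rw [← c.s_be h.mem hij, hp, map_pow]
  obtain ⟨i2, hi20, hi21⟩ : ∃ i2, i2 ≠ c.i0 ∧ i2 ≠ c.i1 := by
    by_contra hcon
    push Not at hcon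
    have h1 : (Finset.univ : Finset (Fin n)) ⊆ {c.i0, c.i1} := by
      intro i _
      rw [Finset.mem_insert, Finset.mem_singleton]
      by_cases hi : i = c.i0
      · exact Or.inl hi
      · exact Or.inr (hcon i hi)
    have h2 := Finset.card_le_card h1
    rw [Finset.card_univ, Fintype.card_fin, Finset.card_pair c.h01] at h2
    omega
  set D : Fin n → Fin n → A := fun j k => c.s c.i0 j γ * c.s c.i0 k γ / c.s j k γ with hD
  have hDsymm : ∀ j k, j ≠ k → D j k = D k j := by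
    intro j k hjk
    simp only [hD]
    rw [c.s_comm hjk hγ, mul_comm]
  have hstep : ∀ j k l, j ≠ c.i0 → k ≠ c.i0 → l ≠ c.i0 → j ≠ k → j ≠ l → D j k = D j l := by
    intro j k l hj hk hl hjk hjl
    by_cases hkl : k = l
    · rw [hkl]
    simp only [hD]
    rw [div_eq_div_iff (c.s_ne_zero hγ0 _ _) (c.s_ne_zero hγ0 _ _)]
    have h1 := hκ c.i0 k l j hk.symm hl.symm hj.symm hkl hjk.symm hjl.symm
    rw [c.s_comm hjl hγ, c.s_comm hjk hγ]
    linear_combination (c.s c.i0 j γ) * h1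
  have hconst : ∀ j k, j ≠ c.i0 → k ≠ c.i0 → j ≠ k → D j k = D c.i1 i2 := by
    intro j k hj hk hjk
    have h10 : c.i1 ≠ c.i0 := c.h01.symm
    by_cases h1 : j = c.i1
    · subst h1
      exact hstep _ _ _ hj hk hi20 hjk hi21.symm
    · by_cases h2 : k = c.i1
      · subst h2
        rw [hDsymm _ _ hjk]
        exact hstep _ _ _ hk hj hi20 hjk.symm hi21.symm
      · rw [hstep j k c.i1 hj hk h10 hjk h1, hDsymm _ _ h1]
        exact hstep _ _ _ h10 hj hi20 (Ne.symm h1) hi21.symm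
  set δ := D c.i1 i2 with hδ
  have hδmem : δ ∈ IntermediateField.adjoin ℚ {c.θ c.i0} := by
    apply mem_of_fixed
    intro σ hσ
    have h1 : c.pm σ c.i0 = c.i0 := c.pm_eq (hσ _ (IntermediateField.mem_adjoin_simple_self ℚ _))
    have h2 : σ δ = D (c.pm σ c.i1) (c.pm σ i2) := by
      rw [hδ]
      simp only [hD]
      rw [map_div₀, map_mul, c.act_s σ c.h01 hγ, c.act_s σ hi20.symm hγ, c.act_s σ hi21.symm hγ, h1]
    rw [h2]
    apply hconst
    · intro h3
      rw [← h1] at h3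
      exact c.h01 (c.pm_inj σ h3).symm
    · intro h3
      rw [← h1] at h3
      exact hi20 (c.pm_inj σ h3)
    · intro h3
      exact hi21 (c.pm_inj σ h3).symm
  have hδpow : δ ^ M = c.be z c.i0 ^ 2 := by
    rw [hδ]
    simp only [hD]
    rw [div_pow, mul_pow, ← hpw _ _ c.h01, ← hpw _ _ hi20.symm, ← hpw _ _ hi21.symm]
    have h1 := c.be_ne_zero h.ne c.i1
    have h2 := c.be_ne_zero h.ne i2
    field_simp
  have hδ0 : δ ≠ 0 := by
    rw [hδ]
    simp only [hD]
    exact div_ne_zero (mul_ne_zero (c.s_ne_zero hγ0 _ _) (c.s_ne_zero hγ0 _ _)) (c.s_ne_zero hγ0 _ _)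
  -- move to the root number `a k`
  obtain ⟨σ, hσ1, -⟩ := c.two c.i0 c.i1 (a k) (b k) c.h01 (hA k).ab
  have hσδ : σ δ ∈ Q A (P k) := by
    have h1 : (IntermediateField.adjoin ℚ {c.θ c.i0}).map (σ : A →ₐ[ℚ] A) ≤ Q A (P k) := by
      rw [IntermediateField.adjoin_map, IntermediateField.adjoin_le_iff, Set.image_singleton]
      intro w hw
      rw [Set.mem_singleton_iff] at hw
      rw [hw]
      show σ (c.θ c.i0) ∈ Q A (P k)
      rw [hσ1]
      exact (hA k).qa
    exact h1 ⟨δ, hδmem, rfl⟩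
  obtain ⟨t, ht⟩ := W_Q (P k) hσδ ((map_ne_zero _).2 hδ0)
  have h1 : (σ δ) ^ M = c.be z (a k) ^ 2 := by
    rw [← map_pow, hδpow, map_pow, c.act_be σ h.mem, c.pm_eq hσ1]
  have h2 := congrArg (W (P k)) h1
  have heps : eps (a k) (b k) (a k) = 1 := by simp [eps]
  rw [W_pow, W_pow, ht, h.be_P hn (fun k => (hA k).ab) k (a k), heps, mul_one, zpow_mul, zpow_natCast, rho_pow hM] at h2
  have hp0 : ((P k : ℕ) : ℝ) ≠ 0 := by exact_mod_cast (hP k).out.ne_zero
  have hp1 : (1 : ℝ) < ((P k : ℕ) : ℝ) := by exact_mod_cast (hP k).out.one_lt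
  have h3 : ((P k : ℕ) : ℝ) ^ (t * M) = ((P k : ℕ) : ℝ) ^ (-(v k * 2)) := by
    rw [zpow_mul, zpow_natCast, h2, ← zpow_natCast, ← zpow_mul, inv_zpow', Nat.cast_ofNat]
  have h4 : t * M = -(v k * 2) := zpow_right_injective₀ (by linarith) hp1.ne' h3
  exact ⟨-t, by linarith⟩

/-- The square of `κ` is one. -/
theorem Rel.kappa (hM : M ≠ 0) (q : ℕ) [Fact q.Prime] (hMq : M < q) (hqM : M ∣ q + 1) (hq : ∀ i, c.θ i ∈ Q A q)
    {z : A} {v : Fin N → ℤ} (h : Rel c M P a b z v) {γ : A} (hγ : γ ∈ c.K) 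
    (hp : c.be z c.i0 * c.be z c.i1 = γ ^ M) {i j k l : Fin n} (hij : i ≠ j) (hkl : k ≠ l) (hik : i ≠ k)
    (hjl : j ≠ l) : c.s i j γ * c.s k l γ / (c.s i k γ * c.s j l γ) = 1 ∨
      c.s i j γ * c.s k l γ / (c.s i k γ * c.s j l γ) = -1 := by
  have hpw : ∀ i j, i ≠ j → c.be z i * c.be z j = c.s i j γ ^ M := by
    intro i j hij
    rw [← c.s_be h.mem hij, hp, map_pow]
  have hle : IntermediateField.adjoin ℚ (Set.range c.θ) ≤ Q A q := by
    rw [IntermediateField.adjoin_le_iff]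
    rintro _ ⟨i, rfl⟩
    exact hq i
  have h1 : c.s i j γ * c.s k l γ / (c.s i k γ * c.s j l γ) ∈ Q A q :=
    div_mem (mul_mem (hle (c.s_mem hγ hij)) (hle (c.s_mem hγ hkl)))
      (mul_mem (hle (c.s_mem hγ hik)) (hle (c.s_mem hγ hjl)))
  have h2 : (c.s i j γ * c.s k l γ / (c.s i k γ * c.s j l γ)) ^ M = 1 := by
    rw [div_pow, mul_pow, mul_pow, ← hpw _ _ hij, ← hpw _ _ hkl, ← hpw _ _ hik, ← hpw _ _ hjl]
    have h1 := c.be_ne_zero h.ne i
    have h2 := c.be_ne_zero h.ne j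
    have h3 := c.be_ne_zero h.ne k
    have h4 := c.be_ne_zero h.ne l
    field_simp
  have h3 := unity_Q q M (by omega) hMq hqM h1 h2
  have h4 : (c.s i j γ * c.s k l γ / (c.s i k γ * c.s j l γ) - 1) *
      (c.s i j γ * c.s k l γ / (c.s i k γ * c.s j l γ) + 1) = 0 := by linear_combination h3
  rcases mul_eq_zero.1 h4 with h5 | h5
  · exact Or.inl (sub_eq_zero.1 h5)
  · exact Or.inr (eq_neg_of_add_eq_zero_left h5)

end

end Conf

end Pool.Agent.H450.GG
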