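import Pool.Agent.H450.GG.Trans

set_option autoImplicit false
set_option linter.unusedSectionVars false

namespace Pool.Agent.H450.GG

open Polynomial Module

/-- `n` algebraic integers which are permuted doubly transitively by the automorphisms. -/
structure Conf (A : Type) [Field A] [CharZero A] (n : ℕ) where
  θ : Fin n → A
  inj : Function.Injective θ
  int : ∀ i, IsIntegral ℤ (θ i)
  perm : ∀ (σ : A ≃ₐ[ℚ] A) (i : Fin n), ∃ j, σ (θ i) = θ j
  two : ∀ i j i' j' : Fin n, i ≠ j → i' ≠ j' → ∃ σ : A ≃ₐ[ℚ] A, σ (θ i) = θ i' ∧ σ (θ j) = θ j'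
  i0 : Fin n
  i1 : Fin n
  h01 : i0 ≠ i1

theorem sum_prod_eq {A : Type} [Field A] {a b c d : A} (h1 : a + b = c + d) (h2 : a * b = c * d) :
    (a = c ∧ b = d) ∨ (a = d ∧ b = c) := by
  have h3 : (a - c) * (a - d) = 0 := by linear_combination a * h1 - h2
  rcases mul_eq_zero.1 h3 with h | h
  · left
    have h4 : a = c := sub_eq_zero.1 h
    refine ⟨h4, ?_⟩
    rw [h4] at h1
    exact add_left_cancel h1
  · right
    have h4 : a = d := sub_eq_zero.1 h
    refine ⟨h4, ?_⟩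
    rw [h4, add_comm c d] at h1
    exact add_left_cancel h1

namespace Conf

section
variable {A : Type} [Field A] [CharZero A] [Algebra.IsAlgebraic ℚ A] [IsAlgClosed A] {n : ℕ} (c : Conf A n)

/-- the action on the indices -/
noncomputable def pm (σ : A ≃ₐ[ℚ] A) (i : Fin n) : Fin n := (c.perm σ i).choose

theorem pm_spec (σ : A ≃ₐ[ℚ] A) (i : Fin n) : σ (c.θ i) = c.θ (c.pm σ i) := (c.perm σ i).choose_spec

theorem pm_eq {σ : A ≃ₐ[ℚ] A} {i j : Fin n} (h : σ (c.θ i) = c.θ j) : c.pm σ i = j :=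
  c.inj (by rw [← c.pm_spec, h])

theorem pm_inj (σ : A ≃ₐ[ℚ] A) : Function.Injective (c.pm σ) := by
  intro i j h
  have h1 := c.pm_spec σ i
  rw [h, ← c.pm_spec σ j] at h1
  exact c.inj (σ.injective h1)

theorem pm_bij (σ : A ≃ₐ[ℚ] A) : Function.Bijective (c.pm σ) :=
  ⟨c.pm_inj σ, Finite.surjective_of_injective (c.pm_inj σ)⟩

/-- an automorphism moving the first two roots to given ones -/
noncomputable def s (i j : Fin n) : A ≃ₐ[ℚ] A :=
  if h : i ≠ j then (c.two c.i0 c.i1 i j c.h01 h).choose else AlgEquiv.refl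

theorem s_spec {i j : Fin n} (h : i ≠ j) : c.s i j (c.θ c.i0) = c.θ i ∧ c.s i j (c.θ c.i1) = c.θ j := by
  unfold s
  rw [dif_pos h]
  exact (c.two c.i0 c.i1 i j c.h01 h).choose_spec

/-- the generators -/
noncomputable def x : A := c.θ c.i0 + c.θ c.i1
noncomputable def y : A := c.θ c.i0 * c.θ c.i1

/-- the field of the pair `{θ 0, θ 1}` -/
noncomputable def K : IntermediateField ℚ A := IntermediateField.adjoin ℚ {c.x, c.y}

theorem x_mem : c.x ∈ c.K := IntermediateField.subset_adjoin _ _ (by simp)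
theorem y_mem : c.y ∈ c.K := IntermediateField.subset_adjoin _ _ (by simp)

theorem x_int : IsIntegral ℤ c.x := (c.int _).add (c.int _)
theorem y_int : IsIntegral ℤ c.y := (c.int _).mul (c.int _)

instance fd : FiniteDimensional ℚ c.K :=
  IntermediateField.finiteDimensional_adjoin (fun x _ => Algebra.IsIntegral.isIntegral x)

instance nf : NumberField c.K where
  to_charZero := inferInstance
  to_finiteDimensional := c.fd

theorem eq_on {σ τ : A ≃ₐ[ℚ] A} (h1 : σ c.x = τ c.x) (h2 : σ c.y = τ c.y) {α : A} (hα : α ∈ c.K) :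
    σ α = τ α := by
  unfold K at hα
  induction hα using IntermediateField.adjoin_induction with
  | mem a ha =>
    rcases ha with rfl | ha
    · exact h1
    · rw [Set.mem_singleton_iff] at ha
      rw [ha]
      exact h2
  | algebraMap q => rw [AlgEquiv.commutes, AlgEquiv.commutes]
  | add a b _ _ ha hb => rw [map_add, map_add, ha, hb]
  | inv a _ ha => rw [map_inv₀, map_inv₀, ha]
  | mul a b _ _ ha hb => rw [map_mul, map_mul, ha, hb]

/-- The value of an automorphism on `K` depends only on the image of the pair. -/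
theorem eq_s {σ : A ≃ₐ[ℚ] A} {i j : Fin n} (hij : i ≠ j)
    (h : (σ (c.θ c.i0) = c.θ i ∧ σ (c.θ c.i1) = c.θ j) ∨ (σ (c.θ c.i0) = c.θ j ∧ σ (c.θ c.i1) = c.θ i))
    {α : A} (hα : α ∈ c.K) : σ α = c.s i j α := by
  obtain ⟨h1, h2⟩ := c.s_spec hij
  apply c.eq_on _ _ hα
  · unfold x
    rw [map_add, map_add, h1, h2]
    rcases h with ⟨h3, h4⟩ | ⟨h3, h4⟩
    · rw [h3, h4]
    · rw [h3, h4, add_comm]
  · unfold y
    rw [map_mul, map_mul, h1, h2]
    rcases h with ⟨h3, h4⟩ | ⟨h3, h4⟩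
    · rw [h3, h4]
    · rw [h3, h4, mul_comm]

theorem s_comm {i j : Fin n} (hij : i ≠ j) {α : A} (hα : α ∈ c.K) : c.s i j α = c.s j i α := by
  obtain ⟨h1, h2⟩ := c.s_spec hij
  exact c.eq_s hij.symm (Or.inr ⟨h1, h2⟩) hα

theorem act_s (τ : A ≃ₐ[ℚ] A) {i j : Fin n} (hij : i ≠ j) {α : A} (hα : α ∈ c.K) :
    τ (c.s i j α) = c.s (c.pm τ i) (c.pm τ j) α := by
  obtain ⟨h1, h2⟩ := c.s_spec hij
  have h3 : c.pm τ i ≠ c.pm τ j := fun h => hij (c.pm_inj τ h)
  have h4 : ((c.s i j).trans τ) α = c.s (c.pm τ i) (c.pm τ j) α := by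
    apply c.eq_s h3 _ hα
    left
    rw [AlgEquiv.trans_apply, AlgEquiv.trans_apply, h1, h2, ← c.pm_spec, ← c.pm_spec]
    exact ⟨rfl, rfl⟩
  rw [← h4, AlgEquiv.trans_apply]

theorem s_01 {α : A} (hα : α ∈ c.K) : c.s c.i0 c.i1 α = α := by
  have := c.eq_s (σ := AlgEquiv.refl) c.h01 (Or.inl ⟨rfl, rfl⟩) hα
  rw [← this]
  rfl

/-- every automorphism acts on `K` as some `s i j` -/
theorem eq_s_pm (σ : A ≃ₐ[ℚ] A) {α : A} (hα : α ∈ c.K) : σ α = c.s (c.pm σ c.i0) (c.pm σ c.i1) α := by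
  apply c.eq_s (fun h => c.h01 (c.pm_inj σ h)) _ hα
  left
  exact ⟨c.pm_spec σ _, c.pm_spec σ _⟩

/-- an automorphism fixing `x` and `y` preserves the pair -/
theorem fix_pair {σ : A ≃ₐ[ℚ] A} (h : ∀ z ∈ c.K, σ z = z) :
    (c.pm σ c.i0 = c.i0 ∧ c.pm σ c.i1 = c.i1) ∨ (c.pm σ c.i0 = c.i1 ∧ c.pm σ c.i1 = c.i0) := by
  have h1 := h c.x c.x_mem
  have h2 := h c.y c.y_mem
  unfold x at h1
  unfold y at h2
  rw [map_add] at h1
  rw [map_mul] at h2
  rcases sum_prod_eq h1 h2 with ⟨h3, h4⟩ | ⟨h3, h4⟩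
  · left
    exact ⟨c.pm_eq h3, c.pm_eq h4⟩
  · right
    exact ⟨c.pm_eq h3, c.pm_eq h4⟩

/-- `β i = ∏_{j ≠ i} α_{ij}` -/
noncomputable def be (α : A) (i : Fin n) : A := ∏ j ∈ Finset.univ.erase i, c.s i j α

theorem act_be (τ : A ≃ₐ[ℚ] A) {α : A} (hα : α ∈ c.K) (i : Fin n) : τ (c.be α i) = c.be α (c.pm τ i) := by
  unfold be
  rw [map_prod]
  refine Finset.prod_bij (fun j _ => c.pm τ j) ?_ ?_ ?_ ?_
  · intro j hj
    rw [Finset.mem_erase] at hj ⊢
    exact ⟨fun h => hj.1 (c.pm_inj τ h), Finset.mem_univ _⟩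
  · intro j _ k _ h
    exact c.pm_inj τ h
  · intro j hj
    rw [Finset.mem_erase] at hj
    obtain ⟨k, hk⟩ := (c.pm_bij τ).2 j
    refine ⟨k, ?_, hk⟩
    rw [Finset.mem_erase]
    refine ⟨?_, Finset.mem_univ _⟩
    rintro rfl
    exact hj.1 hk.symm
  · intro j hj
    rw [Finset.mem_erase] at hj
    exact c.act_s τ hj.1.symm hα

theorem be_mul (α β : A) (i : Fin n) : c.be (α * β) i = c.be α i * c.be β i := by
  unfold be
  simp [Finset.prod_mul_distrib]

theorem be_div (α β : A) (i : Fin n) : c.be (α / β) i = c.be α i / c.be β i := by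
  unfold be
  simp [Finset.prod_div_distrib]

theorem be_ne_zero {α : A} (hα : α ≠ 0) (i : Fin n) : c.be α i ≠ 0 := by
  unfold be
  apply Finset.prod_ne_zero_iff.2
  intro j _
  exact (_root_.map_ne_zero _).2 hα

/-- `β 0 β 1` is in `K` -/
theorem be_mem {α : A} (hα : α ∈ c.K) : c.be α c.i0 * c.be α c.i1 ∈ c.K := by
  apply mem_of_fixed
  intro σ hσ
  rw [map_mul, c.act_be σ hα, c.act_be σ hα]
  rcases c.fix_pair hσ with ⟨h1, h2⟩ | ⟨h1, h2⟩
  · rw [h1, h2]
  · rw [h1, h2, mul_comm]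

theorem s_be {α : A} (hα : α ∈ c.K) {i j : Fin n} (hij : i ≠ j) :
    c.s i j (c.be α c.i0 * c.be α c.i1) = c.be α i * c.be α j := by
  obtain ⟨h1, h2⟩ := c.s_spec hij
  rw [map_mul, c.act_be _ hα, c.act_be _ hα, c.pm_eq h1, c.pm_eq h2]

theorem s_ne_zero {α : A} (hα : α ≠ 0) (i j : Fin n) : c.s i j α ≠ 0 := (_root_.map_ne_zero _).2 hα

theorem s_mem {α : A} (hα : α ∈ c.K) {i j : Fin n} (hij : i ≠ j) :
    c.s i j α ∈ IntermediateField.adjoin ℚ (Set.range c.θ) := by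
  have h1 : c.K.map (c.s i j : A →ₐ[ℚ] A) ≤ IntermediateField.adjoin ℚ (Set.range c.θ) := by
    unfold K
    rw [IntermediateField.adjoin_map, IntermediateField.adjoin_le_iff]
    have h2 : ∀ k, c.θ k ∈ IntermediateField.adjoin ℚ (Set.range c.θ) :=
      fun k => IntermediateField.subset_adjoin _ _ ⟨k, rfl⟩
    obtain ⟨h3, h4⟩ := c.s_spec hij
    rintro z ⟨w, hw, rfl⟩
    rcases hw with rfl | hw
    · have : (c.s i j : A →ₐ[ℚ] A) c.x = c.θ i + c.θ j := by
        show c.s i j (c.θ c.i0 + c.θ c.i1) = _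
        rw [map_add, h3, h4]
      rw [this]
      exact add_mem (h2 i) (h2 j)
    · rw [Set.mem_singleton_iff] at hw
      rw [hw]
      have : (c.s i j : A →ₐ[ℚ] A) c.y = c.θ i * c.θ j := by
        show c.s i j (c.θ c.i0 * c.θ c.i1) = _
        rw [map_mul, h3, h4]
      rw [this]
      exact mul_mem (h2 i) (h2 j)
  exact h1 ⟨α, hα, rfl⟩

/-- The degree of `K`. -/
theorem finrank_K : finrank ℚ c.K = n.choose 2 := by
  classical
  rw [← AlgHom.card ℚ c.K A]
  have hcard : n.choose 2 = Nat.card {S : Finset (Fin n) // S ∈ Finset.powersetCard 2 Finset.univ} := by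
    rw [Nat.card_eq_fintype_card, Fintype.card_coe, Finset.card_powersetCard, Finset.card_univ, Fintype.card_fin]
  rw [hcard, eq_comm, ← Nat.card_eq_fintype_card]
  have hpair : ∀ S : {S : Finset (Fin n) // S ∈ Finset.powersetCard 2 Finset.univ},
      ∃ i j : Fin n, i ≠ j ∧ (S : Finset (Fin n)) = {i, j} := by
    intro S
    have h1 := (Finset.mem_powersetCard.1 S.2).2
    exact Finset.card_eq_two.1 h1
  choose a b hab hS using hpair
  let F : {S : Finset (Fin n) // S ∈ Finset.powersetCard 2 Finset.univ} → (c.K →ₐ[ℚ] A) :=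
    fun S => ((c.s (a S) (b S) : A →ₐ[ℚ] A)).comp c.K.val
  apply Nat.card_eq_of_bijective F
  constructor
  · intro S T hST
    have hx := DFunLike.congr_fun hST ⟨c.x, c.x_mem⟩
    have hy := DFunLike.congr_fun hST ⟨c.y, c.y_mem⟩
    have hx' : c.s (a S) (b S) c.x = c.s (a T) (b T) c.x := hx
    have hy' : c.s (a S) (b S) c.y = c.s (a T) (b T) c.y := hy
    obtain ⟨h1, h2⟩ := c.s_spec (hab S)
    obtain ⟨h3, h4⟩ := c.s_spec (hab T)
    unfold x at hx'
    unfold y at hy'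
    rw [map_add, map_add, h1, h2, h3, h4] at hx'
    rw [map_mul, map_mul, h1, h2, h3, h4] at hy'
    apply Subtype.ext
    rw [hS S, hS T]
    rcases sum_prod_eq hx' hy' with ⟨h5, h6⟩ | ⟨h5, h6⟩
    · rw [c.inj h5, c.inj h6]
    · rw [c.inj h5, c.inj h6, Finset.pair_comm]
  · intro φ
    have hn : Normal ℚ A := normal_A (A := A)
    obtain ⟨σ, hσ⟩ : ∃ σ : A ≃ₐ[ℚ] A, ∀ z : c.K, σ z = φ z := by
      have hK : Algebra.IsAlgebraic c.K A := Algebra.IsAlgebraic.tower_top (K := ℚ) c.K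
      obtain ⟨ψ, hψ⟩ := IsAlgClosed.surjective_domRestrict_of_isAlgebraic (K := ℚ) (L := c.K) (M := A) (E := A) φ
      refine ⟨AlgEquiv.ofBijective ψ (Algebra.IsAlgebraic.algHom_bijective ψ), ?_⟩
      intro z
      rw [← hψ]
      rfl
    have h01 : c.pm σ c.i0 ≠ c.pm σ c.i1 := fun h => c.h01 (c.pm_inj σ h)
    refine ⟨⟨{c.pm σ c.i0, c.pm σ c.i1}, ?_⟩, ?_⟩
    · rw [Finset.mem_powersetCard]
      exact ⟨Finset.subset_univ _, Finset.card_pair h01⟩
    · ext z
      rw [← hσ z]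
      set S : {S : Finset (Fin n) // S ∈ Finset.powersetCard 2 Finset.univ} :=
        ⟨{c.pm σ c.i0, c.pm σ c.i1}, by
          rw [Finset.mem_powersetCard]
          exact ⟨Finset.subset_univ _, Finset.card_pair h01⟩⟩ with hSdef
      show c.s (a S) (b S) z = σ z
      have h1 : ({c.pm σ c.i0, c.pm σ c.i1} : Finset (Fin n)) = {a S, b S} := hS S
      symm
      apply c.eq_s (hab S) _ z.2
      have h2 : c.pm σ c.i0 ∈ ({a S, b S} : Finset (Fin n)) := by rw [← h1]; simp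
      have h3 : c.pm σ c.i1 ∈ ({a S, b S} : Finset (Fin n)) := by rw [← h1]; simp
      rw [c.pm_spec, c.pm_spec]
      rw [Finset.mem_insert, Finset.mem_singleton] at h2 h3
      rcases h2 with h2 | h2 <;> rcases h3 with h3 | h3
      · exact absurd (h2.trans h3.symm) h01
      · left; rw [h2, h3]; exact ⟨rfl, rfl⟩
      · right; rw [h2, h3]; exact ⟨rfl, rfl⟩
      · exact absurd (h2.trans h3.symm) h01

end

end Conf

end Pool.Agent.H450.GG
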