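import Pool.Agent.H450.GG.Val

set_option autoImplicit false
set_option linter.unusedSectionVars false

namespace Pool.Agent.H450.GG

open Polynomial

section
variable {A : Type} [Field A] [CharZero A] [Algebra.IsAlgebraic ℚ A]

/-- `θ` lists the roots of the monic polynomial `f`. -/
def Rts {n : ℕ} (f : ℤ[X]) (θ : Fin n → A) : Prop := f.map (algebraMap ℤ A) = ∏ i, (X - C (θ i))

theorem Rts.aeval {n : ℕ} {f : ℤ[X]} {θ : Fin n → A} (h : Rts f θ) (x : A) : aeval x f = ∏ i, (x - θ i) := by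
  have h1 := congrArg (Polynomial.eval x) h
  rw [Polynomial.eval_map_algebraMap] at h1
  rw [h1, Polynomial.eval_prod]
  simp

theorem Rts.root {n : ℕ} {f : ℤ[X]} {θ : Fin n → A} (h : Rts f θ) (i : Fin n) : Polynomial.aeval (θ i) f = 0 := by
  rw [h.aeval]
  exact Finset.prod_eq_zero (Finset.mem_univ i) (sub_self _)

theorem Rts.mem {n : ℕ} {f : ℤ[X]} {θ : Fin n → A} (h : Rts f θ) {x : A} (hx : Polynomial.aeval x f = 0) :
    ∃ i, x = θ i := by
  rw [h.aeval, Finset.prod_eq_zero_iff] at hx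
  obtain ⟨i, -, hi⟩ := hx
  exact ⟨i, sub_eq_zero.1 hi⟩

theorem Rts.monic {n : ℕ} {f : ℤ[X]} {θ : Fin n → A} (h : Rts f θ) : f.Monic := by
  have h1 : (f.map (algebraMap ℤ A)).Monic := by
    rw [h]
    exact monic_prod_of_monic _ _ fun i _ => monic_X_sub_C _
  exact Polynomial.monic_of_injective (FaithfulSMul.algebraMap_injective ℤ A) h1

theorem Rts.integral {n : ℕ} {f : ℤ[X]} {θ : Fin n → A} (h : Rts f θ) (i : Fin n) : IsIntegral ℤ (θ i) :=
  ⟨f, h.monic, h.root i⟩

theorem Rts.perm {n : ℕ} {f : ℤ[X]} {θ : Fin n → A} (h : Rts f θ) (σ : A ≃ₐ[ℚ] A) (i : Fin n) :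
    ∃ j, σ (θ i) = θ j := by
  apply h.mem
  have h1 : Polynomial.aeval (σ (θ i)) f = (σ : A →+* A) (Polynomial.aeval (θ i) f) := by
    rw [Polynomial.aeval_def, Polynomial.aeval_def, Polynomial.hom_eval₂]
    congr 1
    exact RingHom.ext_int _ _
  rw [h1, h.root, map_zero]

variable (p : ℕ) [Fact p.Prime]

/-- A root which is alone in its residue class is in `ℚ_p`. -/
theorem mem_Q_of_unique {n : ℕ} {f : ℤ[X]} {θ : Fin n → A} (h : Rts f θ) (c : ℤ) (i : Fin n)
    (hi : W p (θ i - c) < 1) (hu : ∀ j, W p (θ j - c) < 1 → θ j = θ i) : θ i ∈ Q A p := by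
  rw [mem_Q]
  have h1 : psi p (θ i) ∈ (⊥ : IntermediateField ℚ_[p] (PadicAlgCl p)) := by
    rw [InfiniteGalois.mem_bot_iff_fixed]
    intro τ
    -- the image is a root
    have h2 : ∃ j, τ (psi p (θ i)) = psi p (θ j) := by
      have h3 : Polynomial.aeval (τ (psi p (θ i))) f = 0 := by
        have h4 : Polynomial.aeval (τ (psi p (θ i))) f =
            ((τ : PadicAlgCl p →+* PadicAlgCl p).comp (psi (A := A) p : A →+* PadicAlgCl p)) (Polynomial.aeval (θ i) f) := by
          rw [Polynomial.aeval_def, Polynomial.aeval_def, Polynomial.hom_eval₂]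
          congr 1
          exact RingHom.ext_int _ _
        rw [h4, h.root, map_zero]
      have h5 : f.map (algebraMap ℤ (PadicAlgCl p)) = ∏ j, (X - C (psi p (θ j))) := by
        have h6 : algebraMap ℤ (PadicAlgCl p) = (psi (A := A) p : A →+* PadicAlgCl p).comp (algebraMap ℤ A) :=
          RingHom.ext_int _ _
        rw [h6, ← Polynomial.map_map, h, Polynomial.map_prod]
        simp
      have h7 := congrArg (Polynomial.eval (τ (psi p (θ i)))) h5
      rw [Polynomial.eval_map_algebraMap, h3, Polynomial.eval_prod, eq_comm, Finset.prod_eq_zero_iff] at h7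
      obtain ⟨j, -, hj⟩ := h7
      refine ⟨j, ?_⟩
      simpa [sub_eq_zero] using hj
    obtain ⟨j, hj⟩ := h2
    have h3 : W p (θ j - c) = W p (θ i - c) := by
      unfold W
      have h4 : psi p (θ j - c) = τ (psi p (θ i - c)) := by
        rw [map_sub, map_sub, map_sub, ← hj]
        simp
      rw [h4]
      exact (spectralNorm_eq_of_equiv τ _).symm
    rw [hj, hu j (by rw [h3]; exact hi)]
  rw [IntermediateField.mem_bot] at h1
  exact h1

/-- The absolute value of a unit congruent to one. -/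
theorem W_one_add {x : A} (h : W p x < 1) : W p (1 + x) = 1 := by
  rw [W_add_eq p (by rw [W_one]; exact h), W_one]

theorem W_eq_of_sub_lt {x y : A} (h : W p (x - y) < W p y) : W p x = W p y := by
  have := W_add_eq p h
  rwa [add_sub_cancel] at this

theorem inv_p_lt : ((p : ℝ)⁻¹) < 1 := by
  have : (1 : ℝ) < p := by exact_mod_cast (Fact.out : p.Prime).one_lt
  exact inv_lt_one_of_one_lt₀ this

theorem inv_p_pos : 0 < ((p : ℝ)⁻¹) := by
  have : (0 : ℝ) < p := by exact_mod_cast (Fact.out : p.Prime).pos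
  positivity

/-- The basic local computation. -/
theorem local_eq {f G h : ℤ[X]} (hf : f = G + C (p : ℤ) + C ((p : ℤ) ^ 2) * h) {x : A} (hx : W p x ≤ 1) :
    (Polynomial.aeval x f = 0 → W p (Polynomial.aeval x G) = (p : ℝ)⁻¹) ∧
    (Polynomial.aeval x G = 0 → W p (Polynomial.aeval x f) = (p : ℝ)⁻¹) := by
  have h1 : Polynomial.aeval x f = Polynomial.aeval x G + (p : A) * (1 + (p : A) * Polynomial.aeval x h) := by
    rw [hf]
    simp only [map_add, map_mul, map_pow, eq_intCast, Int.cast_natCast, map_natCast]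
    ring
  have h2 : W p ((p : A) * Polynomial.aeval x h) < 1 := by
    rw [W_mul, W_p]
    have h3 := W_aeval_int_le p h hx
    have h4 := W_nonneg p (Polynomial.aeval x h)
    have h5 := inv_p_lt p
    have h6 := inv_p_pos p
    nlinarith
  have h3 : W p ((p : A) * (1 + (p : A) * Polynomial.aeval x h)) = (p : ℝ)⁻¹ := by
    rw [W_mul, W_one_add p h2, W_p, mul_one]
  constructor
  · intro h0
    rw [h0] at h1
    have h4 : Polynomial.aeval x G = - ((p : A) * (1 + (p : A) * Polynomial.aeval x h)) := by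
      linear_combination -h1
    rw [h4, W_neg, h3]
  · intro h0
    rw [h1, h0, zero_add, h3]

theorem prod_eq_one {ι : Type*} (s : Finset ι) (g : ι → ℝ) (h0 : ∀ i ∈ s, 0 ≤ g i) (h1 : ∀ i ∈ s, g i ≤ 1)
    (h : ∏ i ∈ s, g i = 1) : ∀ i ∈ s, g i = 1 := by
  classical
  intro i hi
  apply le_antisymm (h1 i hi)
  rw [← Finset.mul_prod_erase s g hi] at h
  have h2 : ∏ j ∈ s.erase i, g j ≤ 1 :=
    Finset.prod_le_one (fun j hj => h0 j (Finset.mem_of_mem_erase hj)) (fun j hj => h1 j (Finset.mem_of_mem_erase hj))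
  calc (1 : ℝ) = g i * ∏ j ∈ s.erase i, g j := h.symm
    _ ≤ g i * 1 := mul_le_mul_of_nonneg_left h2 (h0 i hi)
    _ = g i := mul_one _

/-- A simple residue class contains exactly one root. -/
theorem simple_class {n : ℕ} {f : ℤ[X]} {θ : Fin n → A} (h : Rts f θ) (c : ℤ)
    (h1 : ∀ i, W p (θ i - c) < 1 → W p (θ i - c) = (p : ℝ)⁻¹) (h2 : W p (Polynomial.aeval (c : A) f) = (p : ℝ)⁻¹) :
    ∃ a, W p (θ a - c) = (p : ℝ)⁻¹ ∧ (∀ j, j ≠ a → W p (θ j - c) = 1) ∧ θ a ∈ Q A p := by
  classical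
  rw [h.aeval, W_prod] at h2
  have hle : ∀ i, W p ((c : A) - θ i) ≤ 1 := by
    intro i
    refine (W_sub_le p _ _).trans (max_le (W_int_le p c) (W_integral p (h.integral i)))
  have hex : ∃ a, W p (θ a - c) < 1 := by
    by_contra hcon
    push Not at hcon
    have h3 : ∏ i, W p ((c : A) - θ i) = 1 := by
      apply Finset.prod_eq_one
      intro i _
      apply le_antisymm (hle i)
      rw [W_sub_comm]
      exact hcon i
    rw [h3] at h2
    have := inv_p_lt p
    linarith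
  obtain ⟨a, ha⟩ := hex
  have ha' := h1 a ha
  have hone : ∀ j, j ≠ a → W p (θ j - c) = 1 := by
    rw [← Finset.mul_prod_erase Finset.univ _ (Finset.mem_univ a), W_sub_comm, ha'] at h2
    have h3 : ∏ i ∈ Finset.univ.erase a, W p ((c : A) - θ i) = 1 := by
      have h4 := inv_p_pos p
      have h5 : (p : ℝ)⁻¹ * ∏ i ∈ Finset.univ.erase a, W p ((c : A) - θ i) = (p : ℝ)⁻¹ * 1 := by
        rw [mul_one]; exact h2
      exact mul_left_cancel₀ h4.ne' h5
    intro j hj
    have := prod_eq_one _ _ (fun i _ => W_nonneg p _) (fun i _ => hle i) h3 j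
      (Finset.mem_erase.2 ⟨hj, Finset.mem_univ j⟩)
    rw [W_sub_comm]
    exact this
  refine ⟨a, ha', hone, ?_⟩
  apply mem_Q_of_unique p h c a ha
  intro j hj
  by_cases hja : j = a
  · rw [hja]
  · rw [hone j hja] at hj
    exact absurd hj (lt_irrefl _)

theorem W_int_sub {x : A} {c d : ℤ} (h : W p (x - c) < 1) (hcd : ¬ (p : ℤ) ∣ c - d) : W p (x - d) = 1 := by
  have h1 : x - d = ((c - d : ℤ) : A) + (x - c) := by push_cast; ring
  rw [h1, W_add_eq p, W_int_eq p hcd]
  rw [W_int_eq p hcd]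
  exact h

theorem p_not_dvd_of_abs {z : ℤ} (h0 : z ≠ 0) (h : z.natAbs < p) : ¬ (p : ℤ) ∣ z := by
  intro hd
  have h1 : p ∣ z.natAbs := by
    have := Int.natAbs_dvd_natAbs.2 hd
    rwa [Int.natAbs_natCast] at this
  have h2 := Nat.le_of_dvd (Int.natAbs_pos.2 h0) h1
  omega

/-- Type A: `f ≡ X ^ M (X - 1) (X + 1)`. -/
theorem type_A {M n : ℕ} {f h' : ℤ[X]} {θ : Fin n → A} (h : Rts f θ) (hM : 1 ≤ M) (hp2 : 2 < p)
    (hf : f = X ^ M * (X - C 1) * (X + C 1) + C (p : ℤ) + C ((p : ℤ) ^ 2) * h') :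
    ∃ a b, a ≠ b ∧ W p (θ a - 1) = (p : ℝ)⁻¹ ∧ W p (θ b + 1) = (p : ℝ)⁻¹ ∧ θ a ∈ Q A p ∧ θ b ∈ Q A p ∧
      ∀ i, i ≠ a → i ≠ b → W p (θ i) ^ M = (p : ℝ)⁻¹ := by
  have hG : ∀ x : A, Polynomial.aeval x (X ^ M * (X - C 1) * (X + C 1) : ℤ[X]) = x ^ M * (x - 1) * (x + 1) := by
    intro x
    simp
  have hroot : ∀ i, W p (θ i) ^ M * W p (θ i - 1) * W p (θ i + 1) = (p : ℝ)⁻¹ := by
    intro i
    have h1 := (local_eq p hf (W_integral p (h.integral i))).1 (h.root i)
    rw [hG, W_mul, W_mul, W_pow] at h1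
    exact h1
  have key : ∀ (i : Fin n), W p (θ i - 1) < 1 → W p (θ i) = 1 ∧ W p (θ i + 1) = 1 := by
    intro i hi
    have hi' : W p (θ i - ((1 : ℤ) : A)) < 1 := by simpa using hi
    constructor
    · have := W_int_sub p (d := 0) hi' (p_not_dvd_of_abs p (by norm_num) (by norm_num; omega))
      simpa using this
    · have := W_int_sub p (d := -1) hi' (p_not_dvd_of_abs p (by norm_num) (by norm_num; omega))
      simpa using this
  have key' : ∀ (i : Fin n), W p (θ i + 1) < 1 → W p (θ i) = 1 ∧ W p (θ i - 1) = 1 := by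
    intro i hi
    have hi' : W p (θ i - ((-1 : ℤ) : A)) < 1 := by simpa using hi
    constructor
    · have := W_int_sub p (d := 0) hi' (p_not_dvd_of_abs p (by norm_num) (by norm_num; omega))
      simpa using this
    · have := W_int_sub p (d := 1) hi' (p_not_dvd_of_abs p (by norm_num) (by norm_num; omega))
      simpa using this
  obtain ⟨a, ha1, ha2, ha3⟩ := simple_class p h 1 (by
    intro i hi
    have hi' : W p (θ i - 1) < 1 := by simpa using hi
    have h1 := hroot i
    rw [(key i hi').1, (key i hi').2] at h1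
    simpa using h1) ((local_eq p hf (W_int_le p 1)).2 (by rw [hG]; simp))
  obtain ⟨b, hb1, hb2, hb3⟩ := simple_class p h (-1) (by
    intro i hi
    have hi' : W p (θ i + 1) < 1 := by simpa using hi
    have h1 := hroot i
    rw [(key' i hi').1, (key' i hi').2] at h1
    simpa using h1) ((local_eq p hf (W_int_le p (-1))).2 (by rw [hG]; simp))
  have ha1' : W p (θ a - 1) = (p : ℝ)⁻¹ := by simpa using ha1
  have hb1' : W p (θ b + 1) = (p : ℝ)⁻¹ := by simpa using hb1
  have hlt := inv_p_lt p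
  refine ⟨a, b, ?_, ha1', hb1', ha3, hb3, ?_⟩
  · rintro rfl
    have := (key a (by rw [ha1']; exact hlt)).2
    rw [hb1'] at this
    linarith
  · intro i hia hib
    have h1 := hroot i
    have h2 : W p (θ i - 1) = 1 := by simpa using ha2 i hia
    have h3 : W p (θ i + 1) = 1 := by simpa using hb2 i hib
    rw [h2, h3, mul_one, mul_one] at h1
    exact h1

/-- Type B: `f ≡ X ^ m (X - 1)`. -/
theorem type_B {m n : ℕ} {f h' : ℤ[X]} {θ : Fin n → A} (h : Rts f θ)
    (hf : f = X ^ m * (X - C 1) + C (p : ℤ) + C ((p : ℤ) ^ 2) * h') :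
    ∃ a, θ a ∈ Q A p ∧ ∀ i, i ≠ a → W p (θ i) ^ m = (p : ℝ)⁻¹ := by
  have hG : ∀ x : A, Polynomial.aeval x (X ^ m * (X - C 1) : ℤ[X]) = x ^ m * (x - 1) := by
    intro x
    simp
  have hroot : ∀ i, W p (θ i) ^ m * W p (θ i - 1) = (p : ℝ)⁻¹ := by
    intro i
    have h1 := (local_eq p hf (W_integral p (h.integral i))).1 (h.root i)
    rw [hG, W_mul, W_pow] at h1
    exact h1
  have key : ∀ (i : Fin n), W p (θ i - 1) < 1 → W p (θ i) = 1 := by
    intro i hi
    have hi' : W p (θ i - ((1 : ℤ) : A)) < 1 := by simpa using hi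
    have := W_int_sub p (d := 0) hi' (p_not_dvd_of_abs p (by norm_num) (by
      have := (Fact.out : p.Prime).one_lt
      norm_num; omega))
    simpa using this
  obtain ⟨a, ha1, ha2, ha3⟩ := simple_class p h 1 (by
    intro i hi
    have hi' : W p (θ i - 1) < 1 := by simpa using hi
    have h1 := hroot i
    rw [key i hi'] at h1
    simpa using h1) ((local_eq p hf (W_int_le p 1)).2 (by rw [hG]; simp))
  refine ⟨a, ha3, ?_⟩
  intro i hia
  have h1 := hroot i
  have h2 : W p (θ i - 1) = 1 := by simpa using ha2 i hia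
  rw [h2, mul_one] at h1
  exact h1

/-- Type C: `f ≡ X ^ m`. -/
theorem type_C {m n : ℕ} {f h' : ℤ[X]} {θ : Fin n → A} (h : Rts f θ)
    (hf : f = X ^ m + C (p : ℤ) + C ((p : ℤ) ^ 2) * h') (i : Fin n) : W p (θ i) ^ m = (p : ℝ)⁻¹ := by
  have h1 := (local_eq p hf (W_integral p (h.integral i))).1 (h.root i)
  simpa [W_pow] using h1

/-- Type D: `f ≡ ∏ (X - j)`. -/
theorem type_D {n : ℕ} {f h' : ℤ[X]} {θ : Fin n → A} (h : Rts f θ) (hn : n < p)
    (hf : f = ∏ j : Fin n, (X - C ((j : ℕ) : ℤ)) + C (p : ℤ) + C ((p : ℤ) ^ 2) * h') :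
    Function.Injective θ ∧ ∀ i, θ i ∈ Q A p := by
  have hG : ∀ x : A, Polynomial.aeval x (∏ j : Fin n, (X - C ((j : ℕ) : ℤ)) : ℤ[X]) = ∏ j : Fin n, (x - (((j : ℕ) : ℤ) : A)) := by
    intro x
    simp
  have hroot : ∀ i, ∏ j : Fin n, W p (θ i - (((j : ℕ) : ℤ) : A)) = (p : ℝ)⁻¹ := by
    intro i
    have h1 := (local_eq p hf (W_integral p (h.integral i))).1 (h.root i)
    rw [hG, W_prod] at h1
    exact h1
  have hdvd : ∀ j k : Fin n, j ≠ k → ¬ (p : ℤ) ∣ ((j : ℕ) : ℤ) - ((k : ℕ) : ℤ) := by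
    intro j k hjk
    have h1 : (j : ℕ) ≠ (k : ℕ) := fun h => hjk (Fin.ext h)
    apply p_not_dvd_of_abs p
    · omega
    · have := j.2
      have := k.2
      omega
  have hsc : ∀ j : Fin n, ∃ a, W p (θ a - (((j : ℕ) : ℤ) : A)) = (p : ℝ)⁻¹ ∧ θ a ∈ Q A p := by
    intro j
    obtain ⟨a, h1, -, h2⟩ := simple_class p h ((j : ℕ) : ℤ) (by
      intro i hi
      have h1 := hroot i
      rw [← Finset.mul_prod_erase Finset.univ _ (Finset.mem_univ j)] at h1
      rw [Finset.prod_eq_one, mul_one] at h1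
      · exact h1
      · intro k hk
        exact W_int_sub p hi (hdvd j k (Finset.ne_of_mem_erase hk).symm)) ((local_eq p hf (W_int_le p _)).2 (by
        rw [hG]
        exact Finset.prod_eq_zero (Finset.mem_univ j) (sub_self _)))
    exact ⟨a, h1, h2⟩
  choose a ha1 ha2 using hsc
  have hlt := inv_p_lt p
  have hja : ∀ j k, θ (a j) = θ (a k) → j = k := by
    intro j k hjk
    by_contra hne
    have h1 := W_int_sub p (by rw [ha1 j]; exact hlt) (hdvd j k hne)
    rw [hjk, ha1 k] at h1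
    linarith
  have hainj : Function.Injective a := fun j k hjk => hja j k (by rw [hjk])
  have hasurj : Function.Surjective a := Finite.surjective_of_injective hainj
  constructor
  · intro x y hxy
    obtain ⟨j, rfl⟩ := hasurj x
    obtain ⟨k, rfl⟩ := hasurj y
    rw [hja j k hxy]
  · intro i
    obtain ⟨j, rfl⟩ := hasurj i
    exact ha2 j

end

end Pool.Agent.H450.GG
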