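import Pool.Agent.H450.GG.Loc

set_option autoImplicit false
set_option linter.unusedSectionVars false

namespace Pool.Agent.H450.GG

open Polynomial

/-- Chinese remainder theorem for monic polynomials of degree `n`. -/
theorem poly_crt {ι : Type} [DecidableEq ι] (n : ℕ) (m : ι → ℤ) (g : ι → ℤ[X]) (s : Finset ι)
    (hm : ∀ i ∈ s, ∀ j ∈ s, i ≠ j → IsCoprime (m i) (m j))
    (hg : ∀ i ∈ s, (g i).Monic ∧ (g i).natDegree = n) :
    ∃ f : ℤ[X], f.Monic ∧ f.natDegree = n ∧ ∀ i ∈ s, ∃ h : ℤ[X], f = g i + C (m i) * h := by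
  induction s using Finset.induction_on with
  | empty => exact ⟨X ^ n, monic_X_pow n, natDegree_X_pow n, by simp⟩
  | insert a s ha ih =>
    obtain ⟨f, hf1, hf2, hf3⟩ := ih
      (fun i hi j hj => hm i (Finset.mem_insert_of_mem hi) j (Finset.mem_insert_of_mem hj))
      (fun i hi => hg i (Finset.mem_insert_of_mem hi))
    have hcop : IsCoprime (m a) (∏ i ∈ s, m i) := by
      apply IsCoprime.prod_right
      intro i hi
      exact hm a (Finset.mem_insert_self a s) i (Finset.mem_insert_of_mem hi) (fun h => ha (h ▸ hi))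
    obtain ⟨u, v, huv⟩ := hcop
    obtain ⟨hga1, hga2⟩ := hg a (Finset.mem_insert_self a s)
    have hdeg : (C (v * ∏ i ∈ s, m i) * (g a - f)).degree < f.degree := by
      have h1 : (g a - f).degree < f.degree := by
        rw [← neg_sub, degree_neg]
        apply degree_sub_lt
        · rw [degree_eq_natDegree hf1.ne_zero, degree_eq_natDegree hga1.ne_zero, hf2, hga2]
        · exact hf1.ne_zero
        · rw [hf1.leadingCoeff, hga1.leadingCoeff]
      refine lt_of_le_of_lt ?_ h1
      refine (degree_mul_le _ _).trans ?_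
      calc (C (v * ∏ i ∈ s, m i)).degree + (g a - f).degree ≤ 0 + (g a - f).degree :=
            add_le_add degree_C_le le_rfl
        _ = _ := zero_add _
    refine ⟨f + C (v * ∏ i ∈ s, m i) * (g a - f), hf1.add_of_left hdeg, ?_, ?_⟩
    · rw [natDegree_add_eq_left_of_degree_lt hdeg, hf2]
    · intro i hi
      rw [Finset.mem_insert] at hi
      rcases hi with rfl | hi
      · refine ⟨C u * (f - g i), ?_⟩
        have h1 : v * ∏ i ∈ s, m i = 1 - u * m i := by linarith
        rw [h1]
        simp only [map_sub, map_mul, map_one]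
        ring
      · obtain ⟨h, hh⟩ := hf3 i hi
        obtain ⟨t, ht⟩ : m i ∣ v * ∏ i ∈ s, m i := (Finset.dvd_prod_of_mem m hi).mul_left v
        refine ⟨h + C t * (g a - f), ?_⟩
        rw [ht]
        simp only [map_mul]
        linear_combination hh

/-- Polynomials with prescribed residues modulo the squares of given primes. -/
theorem exists_poly {ι : Type} [Fintype ι] (n : ℕ) (hn : 1 ≤ n) (P : ι → ℕ) (hP : ∀ i, (P i).Prime)
    (hinj : Function.Injective P) (G : ι → ℤ[X]) (hG : ∀ i, (G i).Monic ∧ (G i).natDegree = n) :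
    ∃ f : ℤ[X], f.Monic ∧ f.natDegree = n ∧
      ∀ i, ∃ h : ℤ[X], f = G i + C (P i : ℤ) + C ((P i : ℤ) ^ 2) * h := by
  classical
  obtain ⟨f, h1, h2, h3⟩ := poly_crt n (fun i => ((P i : ℤ)) ^ 2) (fun i => G i + C (P i : ℤ)) Finset.univ
    (by
      intro i _ j _ hij
      apply IsCoprime.pow
      rw [Nat.isCoprime_iff_coprime]
      exact (Nat.coprime_primes (hP i) (hP j)).2 (fun h => hij (hinj h)))
    (by
      intro i _
      obtain ⟨hm, hd⟩ := hG i
      have hdeg : (C (P i : ℤ)).degree < (G i).degree := by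
        refine lt_of_le_of_lt degree_C_le ?_
        rw [degree_eq_natDegree hm.ne_zero, hd]
        exact_mod_cast hn
      exact ⟨hm.add_of_left hdeg, by rw [natDegree_add_eq_left_of_degree_lt hdeg, hd]⟩)
  exact ⟨f, h1, h2, fun i => h3 i (Finset.mem_univ i)⟩

section
variable {A : Type} [Field A] [CharZero A] [Algebra.IsAlgebraic ℚ A] [IsAlgClosed A]

/-- The roots of a monic polynomial. -/
theorem exists_rts {f : ℤ[X]} (hf : f.Monic) {n : ℕ} (hn : f.natDegree = n) :
    ∃ θ : Fin n → A, Rts f θ := by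
  have h1 := (IsAlgClosed.splits (f.map (algebraMap ℤ A))).eq_prod_roots
  rw [(hf.map _).leadingCoeff, C_1, one_mul] at h1
  have h2 : Multiset.card (f.map (algebraMap ℤ A)).roots = n := by
    rw [← (IsAlgClosed.splits (f.map (algebraMap ℤ A))).natDegree_eq_card_roots, hf.natDegree_map, hn]
  let l := (f.map (algebraMap ℤ A)).roots.toList
  have hl : l.length = n := by rw [Multiset.length_toList, h2]
  refine ⟨fun i => l.get (i.cast hl.symm), ?_⟩
  unfold Rts
  rw [h1]
  have h3 : (f.map (algebraMap ℤ A)).roots = (l : Multiset A) := (Multiset.coe_toList _).symm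
  conv_lhs => rw [h3]
  rw [Multiset.map_coe, Multiset.prod_coe]
  subst hl
  simp only [Fin.cast_refl, id_eq]
  rw [← List.prod_ofFn]
  congr 1
  have : (List.ofFn fun i : Fin l.length => X - C (l.get i)) = List.map (fun a => X - C a) (List.ofFn l.get) := by
    rw [List.map_ofFn]
    rfl
  rw [this, List.ofFn_get]

end

end Pool.Agent.H450.GG
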