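import Pool.Agent.H450.GG.Poly

set_option autoImplicit false
set_option linter.unusedSectionVars false

namespace Pool.Agent.H450.GG

open Polynomial

section
variable {A : Type} [Field A] [CharZero A] [Algebra.IsAlgebraic ℚ A] [IsAlgClosed A]

/-- An element fixed by all automorphisms which fix `F` is in `F`. -/
theorem mem_of_fixed (F : IntermediateField ℚ A) (x : A)
    (h : ∀ σ : A ≃ₐ[ℚ] A, (∀ y ∈ F, σ y = y) → σ x = x) : x ∈ F := by
  have hn : Normal ℚ A := normal_A (A := A)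
  have h2 : Algebra.IsAlgebraic F A := Algebra.IsAlgebraic.tower_top (K := ℚ) F
  have h3 : IsGalois F A := by
    have : Normal F A := Normal.tower_top_of_normal ℚ F A
    have : Algebra.IsSeparable F A := inferInstance
    exact ⟨⟩
  have h1 : x ∈ (⊥ : IntermediateField F A) := by
    rw [InfiniteGalois.mem_bot_iff_fixed]
    intro τ
    have := h (τ.restrictScalars ℚ) (fun y hy => τ.commutes ⟨y, hy⟩)
    exact this
  rw [IntermediateField.mem_bot] at h1
  obtain ⟨y, rfl⟩ := h1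
  exact y.2

/-- Conjugate elements. -/
theorem exists_conj (F : IntermediateField ℚ A) (x y : A) (h : Polynomial.aeval y (minpoly F x) = 0) :
    ∃ σ : A ≃ₐ[ℚ] A, (∀ z ∈ F, σ z = z) ∧ σ x = y := by
  have hn : Normal ℚ A := normal_A (A := A)
  have h2 : Algebra.IsAlgebraic F A := Algebra.IsAlgebraic.tower_top (K := ℚ) F
  have h3 : Normal F A := Normal.tower_top_of_normal ℚ F A
  have hx : IsIntegral F x := Algebra.IsIntegral.isIntegral x
  have h4 : IsConjRoot F x y := by
    rw [isConjRoot_iff_aeval_eq_zero hx]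
    exact h
  obtain ⟨τ, hτ⟩ := isConjRoot_iff_exists_algEquiv.1 h4.symm
  exact ⟨τ.restrictScalars ℚ, fun z hz => τ.commutes ⟨z, hz⟩, hτ⟩

/-- The transitivity lemma. -/
theorem trans_of_val (q : ℕ) [Fact q.Prime] (F : IntermediateField ℚ A) (hF : F ≤ Q A q) (R : Finset A)
    (hR : R.card ≠ 0) (hW : ∀ r ∈ R, W q r ^ R.card = (q : ℝ)⁻¹)
    (x : A) (hx : x ∈ R) (hconj : ∀ σ : A ≃ₐ[ℚ] A, (∀ z ∈ F, σ z = z) → σ x ∈ R) (y : A) (hy : y ∈ R) :
    ∃ σ : A ≃ₐ[ℚ] A, (∀ z ∈ F, σ z = z) ∧ σ x = y := by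
  classical
  have h2 : Algebra.IsAlgebraic F A := Algebra.IsAlgebraic.tower_top (K := ℚ) F
  have hxi : IsIntegral F x := Algebra.IsIntegral.isIntegral x
  have hmon := minpoly.monic hxi
  set g := (minpoly F x).map (algebraMap F A) with hg
  have hgm : g.Monic := hmon.map _
  have hsp := IsAlgClosed.splits g
  have hsep0 : (minpoly F x).Separable := Algebra.IsSeparable.isSeparable F x
  have hsep : g.Separable := hsep0.map
  have hnodup : g.roots.Nodup := nodup_roots hsep
  have hroots : ∀ r ∈ g.roots, r ∈ R := by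
    intro r hr
    rw [mem_roots hgm.ne_zero, IsRoot, hg, Polynomial.eval_map_algebraMap] at hr
    obtain ⟨σ, h1, h2⟩ := exists_conj F x r hr
    rw [← h2]
    exact hconj σ h1
  have hcard : Multiset.card g.roots = g.natDegree := hsp.natDegree_eq_card_roots.symm
  have hxr : x ∈ g.roots := by
    rw [mem_roots hgm.ne_zero, IsRoot, hg, Polynomial.eval_map_algebraMap]
    exact minpoly.aeval F x
  -- the constant coefficient
  have hc0 : g.coeff 0 = (-1) ^ g.natDegree * g.roots.prod := by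
    have := hsp.coeff_zero_eq_prod_roots_of_monic hgm
    rw [this]
  have hc1 : g.coeff 0 ∈ Q A q := by
    rw [hg, coeff_map]
    exact hF ((minpoly F x).coeff 0).2
  have hr0 : ∀ r ∈ R, r ≠ 0 := by
    rintro r hr rfl
    have := hW 0 hr
    rw [W_zero, zero_pow hR] at this
    exact (inv_p_pos q).ne this
  have hc2 : g.coeff 0 ≠ 0 := by
    rw [hc0]
    apply mul_ne_zero (pow_ne_zero _ (by norm_num))
    rw [Ne, Multiset.prod_eq_zero_iff]
    intro h0
    exact hr0 0 (hroots 0 h0) rfl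
  obtain ⟨k, hk⟩ := W_Q q hc1 hc2
  have hWm : ∀ s : Multiset A, (∀ r ∈ s, r ∈ R) → W q s.prod ^ R.card = ((q : ℝ)⁻¹) ^ Multiset.card s := by
    intro s
    induction s using Multiset.induction_on with
    | empty => intro _; simp [W_one]
    | cons a s ih =>
      intro hs
      rw [Multiset.prod_cons, W_mul, mul_pow, ih (fun r hr => hs r (Multiset.mem_cons_of_mem hr)),
        hW a (hs a (Multiset.mem_cons_self a s)), Multiset.card_cons, pow_succ, mul_comm]
  have h5 : W q (g.coeff 0) ^ R.card = ((q : ℝ)⁻¹) ^ g.natDegree := by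
    rw [hc0, W_mul, W_pow, W_neg, W_one, one_pow, one_mul, hWm _ hroots, hcard]
  rw [hk] at h5
  have hq1 : (1 : ℝ) < q := by exact_mod_cast (Fact.out : q.Prime).one_lt
  have h6 : (q : ℝ) ^ (k * R.card) = (q : ℝ) ^ (-(g.natDegree : ℤ)) := by
    rw [zpow_mul, zpow_natCast, h5, zpow_neg, zpow_natCast, inv_pow]
  have h7 : k * R.card = -(g.natDegree : ℤ) := zpow_right_injective₀ (by linarith) hq1.ne' h6
  have h8 : (R.card : ℤ) ∣ (g.natDegree : ℤ) := ⟨-k, by linarith⟩
  have h9 : R.card ∣ g.natDegree := by exact_mod_cast h8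
  have h10 : 0 < g.natDegree := by
    rw [← hcard]
    exact Multiset.card_pos.2 (fun h => by rw [h] at hxr; simp at hxr)
  have h11 := Nat.le_of_dvd h10 h9
  have h12 : g.roots.toFinset ⊆ R := by
    intro r hr
    exact hroots r (Multiset.mem_toFinset.1 hr)
  have h13 : g.roots.toFinset = R := by
    apply Finset.eq_of_subset_of_card_le h12
    rw [Multiset.toFinset_card_of_nodup hnodup, hcard]
    exact h11
  have hyr : y ∈ g.roots := by
    rw [← Multiset.mem_toFinset, h13]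
    exact hy
  rw [mem_roots hgm.ne_zero, IsRoot, hg, Polynomial.eval_map_algebraMap] at hyr
  exact exists_conj F x y hyr

/-- Double transitivity. -/
theorem two_trans {n : ℕ} (hn : 2 ≤ n) {f h1 h2 : ℤ[X]} {θ : Fin n → A} (h : Rts f θ) (hinj : Function.Injective θ)
    (q₁ q₂ : ℕ) [Fact q₁.Prime] [Fact q₂.Prime]
    (hf1 : f = X ^ n + C (q₁ : ℤ) + C ((q₁ : ℤ) ^ 2) * h1)
    (hf2 : f = X ^ (n - 1) * (X - C 1) + C (q₂ : ℤ) + C ((q₂ : ℤ) ^ 2) * h2)
    (i j i' j' : Fin n) (hij : i ≠ j) (hij' : i' ≠ j') :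
    ∃ σ : A ≃ₐ[ℚ] A, σ (θ i) = θ i' ∧ σ (θ j) = θ j' := by
  classical
  -- transitivity
  have htr : ∀ i i' : Fin n, ∃ σ : A ≃ₐ[ℚ] A, σ (θ i) = θ i' := by
    intro i i'
    have hcard : (Finset.univ.image θ).card = n := by
      rw [Finset.card_image_of_injective _ hinj, Finset.card_univ, Fintype.card_fin]
    obtain ⟨σ, -, hσ⟩ := trans_of_val q₁ (⊥ : IntermediateField ℚ A) bot_le (Finset.univ.image θ)
      (by rw [hcard]; omega)
      (by
        intro r hr
        obtain ⟨k, -, rfl⟩ := Finset.mem_image.1 hr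
        rw [hcard]
        exact type_C q₁ h hf1 k)
      (θ i) (Finset.mem_image_of_mem θ (Finset.mem_univ i))
      (by
        intro σ _
        obtain ⟨k, hk⟩ := h.perm σ i
        rw [hk]
        exact Finset.mem_image_of_mem θ (Finset.mem_univ k))
      (θ i') (Finset.mem_image_of_mem θ (Finset.mem_univ i'))
    exact ⟨σ, hσ⟩
  -- the stabilizer of one root
  obtain ⟨a, ha1, ha2⟩ := type_B q₂ h hf2
  have hst : ∀ j j' : Fin n, j ≠ a → j' ≠ a → ∃ σ : A ≃ₐ[ℚ] A, σ (θ a) = θ a ∧ σ (θ j) = θ j' := by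
    intro j j' hj hj'
    have hcard : ((Finset.univ.erase a).image θ).card = n - 1 := by
      rw [Finset.card_image_of_injective _ hinj, Finset.card_erase_of_mem (Finset.mem_univ a),
        Finset.card_univ, Fintype.card_fin]
    have hmem : ∀ k, k ≠ a → θ k ∈ (Finset.univ.erase a).image θ := fun k hk =>
      Finset.mem_image_of_mem θ (Finset.mem_erase.2 ⟨hk, Finset.mem_univ k⟩)
    obtain ⟨σ, hσ1, hσ2⟩ := trans_of_val q₂ (IntermediateField.adjoin ℚ {θ a})
      (by
        rw [IntermediateField.adjoin_le_iff]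
        intro x hx
        rw [Set.mem_singleton_iff] at hx
        rw [hx]
        exact ha1)
      ((Finset.univ.erase a).image θ)
      (by rw [hcard]; omega)
      (by
        intro r hr
        obtain ⟨k, hk, rfl⟩ := Finset.mem_image.1 hr
        rw [hcard]
        exact ha2 k (Finset.ne_of_mem_erase hk))
      (θ j) (hmem j hj)
      (by
        intro σ hσ
        obtain ⟨k, hk⟩ := h.perm σ j
        rw [hk]
        apply hmem
        rintro rfl
        have h3 := hσ (θ k) (IntermediateField.mem_adjoin_simple_self ℚ (θ k))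
        rw [← h3] at hk
        exact hj (hinj (σ.injective hk)))
      (θ j') (hmem j' hj')
    exact ⟨σ, hσ1 _ (IntermediateField.mem_adjoin_simple_self ℚ (θ a)), hσ2⟩
  -- combination
  obtain ⟨σ, hσ⟩ := htr i a
  obtain ⟨τ, hτ⟩ := htr a i'
  obtain ⟨k, hk⟩ := h.perm σ j
  obtain ⟨l, hl⟩ := h.perm τ.symm j'
  have hka : k ≠ a := by
    rintro rfl
    rw [← hσ] at hk
    exact hij (hinj (σ.injective hk)).symm
  have hla : l ≠ a := by
    rintro rfl
    rw [AlgEquiv.symm_apply_eq, hτ] at hl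
    exact hij' (hinj hl).symm
  obtain ⟨ρ, hρ1, hρ2⟩ := hst k l hka hla
  refine ⟨(σ.trans ρ).trans τ, ?_, ?_⟩
  · rw [AlgEquiv.trans_apply, AlgEquiv.trans_apply, hσ, hρ1, hτ]
  · rw [AlgEquiv.trans_apply, AlgEquiv.trans_apply, hk, hρ2, ← hl, AlgEquiv.apply_symm_apply]

end

/-- Roots of unity in `ℚ_q`, `q ≡ -1 mod M`. -/
theorem padic_unity (q M : ℕ) [Fact q.Prime] (hM : 1 ≤ M) (hMq : M < q) (hdvd : M ∣ q + 1) (y : ℚ_[q])
    (hy : y ^ M = 1) : y ^ 2 = 1 := by
  have hqp : q.Prime := Fact.out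
  have hn1 : ‖y‖ = 1 := by
    have h1 := congrArg norm hy
    rw [norm_pow, norm_one] at h1
    exact (pow_eq_one_iff_of_nonneg (norm_nonneg y) (by omega)).1 h1
  obtain ⟨z, hz⟩ : ∃ z : ℤ_[q], (z : ℚ_[q]) = y := ⟨⟨y, hn1.le⟩, rfl⟩
  have hzM : z ^ M = 1 := by
    apply Subtype.ext
    push_cast
    rw [hz, hy]
  obtain ⟨t, ht⟩ := hdvd
  -- reduction
  have hr1 : (PadicInt.toZMod z : ZMod q) ^ M = 1 := by rw [← map_pow, hzM, map_one]
  have hz0 : (PadicInt.toZMod z : ZMod q) ≠ 0 := by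
    intro h0
    rw [h0, zero_pow (by omega)] at hr1
    exact zero_ne_one hr1
  have hr2 : (PadicInt.toZMod z : ZMod q) ^ (q + 1) = 1 := by rw [ht, pow_mul, hr1, one_pow]
  have hr3 : (PadicInt.toZMod z : ZMod q) ^ (q - 1) = 1 := ZMod.pow_card_sub_one_eq_one hz0
  have hr4 : (PadicInt.toZMod z : ZMod q) ^ 2 = 1 := by
    have h1 : q + 1 = (q - 1) + 2 := by have := hqp.one_lt; omega
    rw [h1, pow_add, hr3, one_mul] at hr2
    exact hr2
  set w := z ^ 2 with hw
  have hw1 : w ^ M = 1 := by rw [hw, ← pow_mul, mul_comm, pow_mul, hzM, one_pow]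
  have hw2 : (PadicInt.toZMod w : ZMod q) = 1 := by rw [hw, map_pow, hr4]
  have h3 : (∑ i ∈ Finset.range M, w ^ i) * (w - 1) = 0 := by
    rw [geom_sum_mul, hw1, sub_self]
  have h4 : ∑ i ∈ Finset.range M, w ^ i ≠ 0 := by
    intro h0
    have h5 := congrArg (PadicInt.toZMod (p := q)) h0
    rw [map_sum, map_zero] at h5
    simp only [map_pow, hw2, one_pow, Finset.sum_const, Finset.card_range, nsmul_eq_mul, mul_one] at h5
    rw [ZMod.natCast_eq_zero_iff] at h5
    have := Nat.le_of_dvd (by omega) h5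
    omega
  have h5 : w = 1 := by
    rcases mul_eq_zero.1 h3 with h | h
    · exact absurd h h4
    · exact sub_eq_zero.1 h
  rw [← hz, ← PadicInt.coe_pow, ← hw, h5]
  simp

section
variable {A : Type} [Field A] [CharZero A] [Algebra.IsAlgebraic ℚ A]

theorem unity_Q (q M : ℕ) [Fact q.Prime] (hM : 1 ≤ M) (hMq : M < q) (hdvd : M ∣ q + 1) {x : A} (hx : x ∈ Q A q)
    (h : x ^ M = 1) : x ^ 2 = 1 := by
  obtain ⟨y, hy⟩ := (mem_Q q).1 hx
  have h1 : y ^ M = 1 := by
    apply (algebraMap ℚ_[q] (PadicAlgCl q)).injective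
    rw [map_pow, hy, ← map_pow, h, map_one, map_one]
  have h2 := padic_unity q M hM hMq hdvd y h1
  apply (psi (A := A) q).injective
  show psi q (x ^ 2) = psi q 1
  rw [map_pow, ← hy, ← map_pow, h2, map_one, map_one]

end

end Pool.Agent.H450.GG
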