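import Mathlib

set_option autoImplicit false

namespace Pool.Agent.H450.GG

open Polynomial

section
variable {A : Type} [Field A] [CharZero A] [Algebra.IsAlgebraic ℚ A]
variable (p : ℕ) [Fact p.Prime]

/-- An embedding of the algebraic numbers in the algebraic closure of `ℚ_p`. -/
noncomputable def psi : A →ₐ[ℚ] PadicAlgCl p := IsAlgClosed.lift

/-- A `p`-adic absolute value of the algebraic numbers. -/
noncomputable def W (x : A) : ℝ := ‖psi p x‖

theorem W_zero : W p (0 : A) = 0 := by simp [W]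
theorem W_one : W p (1 : A) = 1 := by simp [W]
theorem W_nonneg (x : A) : 0 ≤ W p x := norm_nonneg _
theorem W_mul (x y : A) : W p (x * y) = W p x * W p y := by simp [W]
theorem W_inv (x : A) : W p (x⁻¹) = (W p x)⁻¹ := by simp [W]
theorem W_div (x y : A) : W p (x / y) = W p x / W p y := by simp [W]
theorem W_pow (x : A) (n : ℕ) : W p (x ^ n) = W p x ^ n := by simp [W]
theorem W_zpow (x : A) (n : ℤ) : W p (x ^ n) = W p x ^ n := by simp [W]
theorem W_neg (x : A) : W p (-x) = W p x := by simp [W]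
theorem W_eq_zero {x : A} : W p x = 0 ↔ x = 0 := by simp [W]
theorem W_pos {x : A} (hx : x ≠ 0) : 0 < W p x :=
  lt_of_le_of_ne (W_nonneg p x) (fun h => hx ((W_eq_zero p).1 h.symm))
theorem W_prod {ι : Type*} (s : Finset ι) (f : ι → A) : W p (∏ i ∈ s, f i) = ∏ i ∈ s, W p (f i) := by
  simp [W]
theorem W_add_le (x y : A) : W p (x + y) ≤ max (W p x) (W p y) := by
  unfold W
  rw [map_add]
  exact PadicAlgCl.isNonarchimedean p _ _
theorem W_sub_le (x y : A) : W p (x - y) ≤ max (W p x) (W p y) := by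
  rw [sub_eq_add_neg]
  refine (W_add_le p _ _).trans ?_
  rw [W_neg]
theorem W_sub_comm (x y : A) : W p (x - y) = W p (y - x) := by
  rw [← W_neg, neg_sub]

theorem W_sum_le {ι : Type*} (s : Finset ι) (f : ι → A) (C : ℝ) (hC : 0 ≤ C) (h : ∀ i ∈ s, W p (f i) ≤ C) :
    W p (∑ i ∈ s, f i) ≤ C := by
  classical
  induction s using Finset.induction_on with
  | empty => simpa [W_zero] using hC
  | insert a s ha ih =>
    rw [Finset.sum_insert ha]
    refine (W_add_le p _ _).trans (max_le (h a (Finset.mem_insert_self a s)) (ih fun i hi => h i (Finset.mem_insert_of_mem hi)))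

/-- if `W y < W x` then `W (x + y) = W x` -/
theorem W_add_eq {x y : A} (h : W p y < W p x) : W p (x + y) = W p x := by
  apply le_antisymm
  · exact (W_add_le p x y).trans (max_le le_rfl h.le)
  · by_contra hcon
    push Not at hcon
    have h1 : W p x ≤ max (W p (x + y)) (W p y) := by
      have := W_sub_le p (x + y) y
      rwa [add_sub_cancel_right] at this
    exact absurd h1 (not_le.2 (max_lt hcon h))

theorem psi_rat (q : ℚ) : psi p (algebraMap ℚ A q) = algebraMap ℚ_[p] (PadicAlgCl p) (q : ℚ_[p]) := by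
  rw [AlgHom.commutes]
  simp

theorem W_rat (q : ℚ) : W p (algebraMap ℚ A q) = ‖(q : ℚ_[p])‖ := by
  unfold W
  rw [psi_rat]
  exact PadicAlgCl.norm_extends p _

theorem W_int (z : ℤ) : W p (z : A) = ‖(z : ℚ_[p])‖ := by
  have := W_rat (A := A) p (z : ℚ)
  simpa using this

theorem W_int_le (z : ℤ) : W p (z : A) ≤ 1 := by
  rw [W_int]
  exact Padic.norm_int_le_one z

theorem W_p : W p (p : A) = (p : ℝ)⁻¹ := by
  have := W_int (A := A) p (p : ℤ)
  simpa using this

theorem W_int_lt {z : ℤ} (h : (p : ℤ) ∣ z) : W p (z : A) ≤ (p : ℝ)⁻¹ := by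
  obtain ⟨t, rfl⟩ := h
  push_cast
  rw [W_mul, W_p]
  have h1 := W_int_le (A := A) p t
  have h2 : (0 : ℝ) ≤ (p : ℝ)⁻¹ := by positivity
  nlinarith

theorem W_int_eq {z : ℤ} (h : ¬ (p : ℤ) ∣ z) : W p (z : A) = 1 := by
  rw [W_int]
  apply le_antisymm (Padic.norm_int_le_one z)
  by_contra hcon
  push Not at hcon
  exact h (Padic.norm_intCast_lt_one_iff.1 hcon)

theorem W_aeval_int_le (f : ℤ[X]) {x : A} (hx : W p x ≤ 1) : W p (aeval x f) ≤ 1 := by
  rw [aeval_eq_sum_range]
  apply W_sum_le p _ _ 1 zero_le_one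
  intro i _
  rw [zsmul_eq_mul, W_mul, W_pow]
  exact mul_le_one₀ (W_int_le p _) (pow_nonneg (W_nonneg p x) _) (pow_le_one₀ (W_nonneg p x) hx)

/-- algebraic integers -/
theorem W_integral {x : A} (hx : IsIntegral ℤ x) : W p x ≤ 1 := by
  obtain ⟨f, hf, h0⟩ := hx
  by_contra hcon
  push Not at hcon
  have h1 : f.natDegree ≠ 0 := by
    intro h
    rw [hf.natDegree_eq_zero.1 h] at h0
    simp at h0
  rw [eval₂_eq_sum_range, Finset.sum_range_succ, hf.coeff_natDegree] at h0
  simp only [algebraMap_int_eq, Int.coe_castRingHom, Int.cast_one, one_mul] at h0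
  have h2 : W p (x ^ f.natDegree) ≤ W p x ^ (f.natDegree - 1) := by
    have h3 : x ^ f.natDegree = - ∑ i ∈ Finset.range f.natDegree, (f.coeff i : A) * x ^ i := by
      linear_combination h0
    rw [h3, W_neg]
    apply W_sum_le p _ _ _ (pow_nonneg (W_nonneg p x) _)
    intro i hi
    rw [W_mul, W_pow]
    have h4 : W p x ^ i ≤ W p x ^ (f.natDegree - 1) :=
      pow_le_pow_right₀ hcon.le (by have := Finset.mem_range.1 hi; omega)
    calc W p (f.coeff i : A) * W p x ^ i ≤ 1 * W p x ^ i :=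
          mul_le_mul_of_nonneg_right (W_int_le p _) (pow_nonneg (W_nonneg p x) _)
      _ ≤ _ := by rwa [one_mul]
  rw [W_pow] at h2
  have h5 : W p x ^ (f.natDegree - 1) < W p x ^ f.natDegree :=
    pow_lt_pow_right₀ hcon (by omega)
  linarith

/-- The elements of the algebraic numbers whose image is in `ℚ_p`. -/
noncomputable def Q (A : Type) [Field A] [CharZero A] [Algebra.IsAlgebraic ℚ A] (p : ℕ) [Fact p.Prime] :
    IntermediateField ℚ A :=
  ((⊥ : IntermediateField ℚ_[p] (PadicAlgCl p)).restrictScalars ℚ).comap (psi p)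

theorem mem_Q {x : A} : x ∈ Q A p ↔ ∃ y : ℚ_[p], algebraMap ℚ_[p] (PadicAlgCl p) y = psi p x := by
  show psi p x ∈ ((⊥ : IntermediateField ℚ_[p] (PadicAlgCl p)).restrictScalars ℚ) ↔ _
  rw [IntermediateField.mem_restrictScalars, IntermediateField.mem_bot]
  rfl

theorem W_Q {x : A} (hx : x ∈ Q A p) (h0 : x ≠ 0) : ∃ n : ℤ, W p x = (p : ℝ) ^ n := by
  obtain ⟨y, hy⟩ := (mem_Q p).1 hx
  have hy0 : y ≠ 0 := by
    rintro rfl
    rw [map_zero] at hy
    exact h0 ((map_eq_zero (psi p)).1 hy.symm)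
  refine ⟨-y.valuation, ?_⟩
  have : W p x = ‖y‖ := by
    unfold W
    rw [← hy]
    exact PadicAlgCl.norm_extends p _
  rw [this, Padic.norm_eq_zpow_neg_valuation hy0]

/-- A rational number which is `p`-integral for all `p` is an integer. -/
theorem rat_int (q : ℚ) (h : ∀ (p : ℕ) [Fact p.Prime], ‖(q : ℚ_[p])‖ ≤ 1) : ∃ z : ℤ, (z : ℚ) = q := by
  by_cases hq : q.den = 1
  · exact ⟨q.num, by rw [← Rat.den_eq_one_iff]; exact hq⟩
  · exfalso
    obtain ⟨p, hp, hpd⟩ := Nat.exists_prime_and_dvd hq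
    have : Fact p.Prime := ⟨hp⟩
    have h1 := h p
    have h2 : (q : ℚ_[p]) * (q.den : ℚ_[p]) = (q.num : ℚ_[p]) := by
      have := Rat.mul_den_eq_num q
      exact_mod_cast congrArg (fun x : ℚ => (x : ℚ_[p])) this
    have h3 : ‖(q.num : ℚ_[p])‖ = 1 := by
      apply le_antisymm (Padic.norm_int_le_one _)
      by_contra hcon
      push Not at hcon
      have h4 := Padic.norm_intCast_lt_one_iff.1 hcon
      have h5 : (p : ℤ).natAbs ∣ q.num.natAbs := Int.natAbs_dvd_natAbs.2 h4
      rw [Int.natAbs_natCast] at h5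
      have h6 := Nat.dvd_gcd h5 hpd
      rw [q.reduced] at h6
      exact hp.one_lt.ne' (Nat.dvd_one.1 h6)
    have h4 : ‖(q.den : ℚ_[p])‖ < 1 := by
      have : ‖((q.den : ℤ) : ℚ_[p])‖ < 1 := Padic.norm_intCast_lt_one_iff.2 (by exact_mod_cast hpd)
      simpa using this
    have h5 := congrArg norm h2
    rw [norm_mul, h3] at h5
    nlinarith [norm_nonneg (q : ℚ_[p]), norm_nonneg (q.den : ℚ_[p])]

theorem normal_A [IsAlgClosed A] : Normal ℚ A := by
  have : IsAlgClosure ℚ A := ⟨inferInstance, inferInstance⟩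
  exact IsAlgClosure.normal ℚ A

/-- An algebraic number all of whose conjugates are `p`-integral for all `p` is integral. -/
theorem integral_of_W [IsAlgClosed A] {z : A}
    (h : ∀ (p : ℕ) [Fact p.Prime] (σ : A ≃ₐ[ℚ] A), W p (σ z) ≤ 1) : IsIntegral ℤ z := by
  have hn := normal_A (A := A)
  have hz : IsIntegral ℚ z := Algebra.IsIntegral.isIntegral z
  -- the coefficients of the minimal polynomial are integers
  have hc : ∀ i, ∃ c : ℤ, (c : ℚ) = (minpoly ℚ z).coeff i := by
    intro i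
    apply rat_int
    intro p _
    let O : Subring (PadicAlgCl p) := (Valued.v (R := PadicAlgCl p)).integer
    have hO : ∀ x : PadicAlgCl p, x ∈ O ↔ ‖x‖ ≤ 1 := fun x => Iff.rfl
    have h1 : (minpoly ℚ z).map (algebraMap ℚ A) = (((minpoly ℚ z).aroots A).map fun a => X - C a).prod := by
      have := (IsAlgClosed.splits ((minpoly ℚ z).map (algebraMap ℚ A))).eq_prod_roots
      rw [this]
      rw [Polynomial.leadingCoeff_map, (minpoly.monic hz).leadingCoeff]
      simp
    have h2 : (minpoly ℚ z).map (algebraMap ℚ (PadicAlgCl p)) ∈ Polynomial.lifts O.subtype := by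
      have h3 : (algebraMap ℚ (PadicAlgCl p)) = (psi (A := A) p : A →+* PadicAlgCl p).comp (algebraMap ℚ A) :=
        ((psi (A := A) p).comp_algebraMap).symm
      rw [h3, ← Polynomial.map_map, h1, Polynomial.map_multiset_prod]
      apply Subsemiring.multiset_prod_mem
      intro f hf
      rw [Multiset.map_map, Multiset.mem_map] at hf
      obtain ⟨a, ha, rfl⟩ := hf
      have ha2 : IsConjRoot ℚ z a := by
        rw [isConjRoot_iff_mem_minpoly_aroots hz]
        exact ha
      obtain ⟨σ, hσ⟩ := isConjRoot_iff_exists_algEquiv.1 ha2.symm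
      have h4 : psi p a ∈ O := by
        rw [hO, ← hσ]
        exact h p σ
      rw [Polynomial.mem_lifts]
      refine ⟨X - C ⟨psi p a, h4⟩, ?_⟩
      simp
    rw [Polynomial.lifts_iff_coeff_lifts] at h2
    obtain ⟨c, hc⟩ := h2 i
    rw [Polynomial.coeff_map] at hc
    have h5 : ‖algebraMap ℚ (PadicAlgCl p) ((minpoly ℚ z).coeff i)‖ ≤ 1 := by
      rw [← hc]
      exact c.2
    have h6 : algebraMap ℚ (PadicAlgCl p) ((minpoly ℚ z).coeff i) =
        algebraMap ℚ_[p] (PadicAlgCl p) (((minpoly ℚ z).coeff i : ℚ) : ℚ_[p]) := by simp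
    rw [h6] at h5
    have h7 := PadicAlgCl.norm_extends p (((minpoly ℚ z).coeff i : ℚ) : ℚ_[p])
    rw [← h7]
    exact h5
  choose c hc using hc
  have h1 : minpoly ℚ z ∈ Polynomial.lifts (Int.castRingHom ℚ) := by
    rw [Polynomial.lifts_iff_coeff_lifts]
    intro i
    exact ⟨c i, hc i⟩
  obtain ⟨f, hf1, hf2, hf3⟩ := Polynomial.lifts_and_natDegree_eq_and_monic h1 (minpoly.monic hz)
  refine ⟨f, hf3, ?_⟩
  have h2 : eval₂ (algebraMap ℤ A) z f = eval₂ (algebraMap ℚ A) z (f.map (Int.castRingHom ℚ)) := by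
    rw [Polynomial.eval₂_map]
    congr 1
    exact RingHom.ext_int _ _
  rw [h2, hf1]
  exact minpoly.aeval ℚ z

end

end Pool.Agent.H450.GG
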